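import Pool.Agent.TH935.TF4
import Pool.Agent.W93.PP8

set_option autoImplicit false

/-! Thin sets of arguments: the first moment over the constant terms. -/

namespace Pool.Agent.Helper896.DU
open Finset
open Pool.Agent.H373R2.T7
open Pool.Agent.TH935.TF (LL mdl one_mom LL_nonneg LL_le mdl_nonneg mdl_le)

/-- exchanging the roles: from arbitrary weights on `q` to arbitrary weights on `m` -/
lemma swap (y x : ℕ) (D : ℕ → ℕ → ℝ) (δ : ℝ)
    (h : ∀ ε : ℕ → ℝ, (∀ q ∈ Icc 1 y, |ε q| ≤ 1) → ∑ m ∈ Icc 1 x, |∑ q ∈ Icc 1 y, ε q * D q m| ≤ δ)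
    (K : ℝ) (hK : 0 < K) (G : ℕ → ℝ) (hG : ∀ m ∈ Icc 1 x, |G m| ≤ K) :
    ∑ q ∈ Icc 1 y, |∑ m ∈ Icc 1 x, G m * D q m| ≤ K * δ := by
  obtain ⟨ε, hε⟩ : ∃ ε : ℕ → ℝ, ε = fun q => if 0 ≤ ∑ m ∈ Icc 1 x, G m * D q m then 1 else -1 := ⟨_, rfl⟩
  have h1 := h ε (fun q _ => by rw [hε]; simp only; split_ifs <;> simp)
  have h2 : ∀ q, |∑ m ∈ Icc 1 x, G m * D q m| = ε q * ∑ m ∈ Icc 1 x, G m * D q m := by
    intro q
    rw [hε]
    simp only
    split_ifs with h4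
    · rw [one_mul, abs_of_nonneg h4]
    · rw [abs_of_neg (not_le.1 h4)]; ring
  calc ∑ q ∈ Icc 1 y, |∑ m ∈ Icc 1 x, G m * D q m|
      = ∑ m ∈ Icc 1 x, G m * ∑ q ∈ Icc 1 y, ε q * D q m := by
        rw [sum_congr rfl fun q _ => h2 q]
        simp only [mul_sum]
        rw [sum_comm]
        apply sum_congr rfl
        intro m _
        apply sum_congr rfl
        intro q _
        ring
    _ ≤ ∑ m ∈ Icc 1 x, K * |∑ q ∈ Icc 1 y, ε q * D q m| := by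
        apply sum_le_sum
        intro m hm
        refine (le_abs_self _).trans ?_
        rw [abs_mul]
        exact mul_le_mul_of_nonneg_right (hG m hm) (abs_nonneg _)
    _ = K * ∑ m ∈ Icc 1 x, |∑ q ∈ Icc 1 y, ε q * D q m| := by rw [mul_sum]
    _ ≤ K * δ := mul_le_mul_of_nonneg_left h1 hK.le

/-- one coordinate -/
theorem dual_one (h C U : ℕ) : ∃ B0 : ℕ, ∀ E : ℕ, ∃ N0 : ℕ, ∀ N : ℕ, N0 ≤ N → ∀ (x : ℕ) (s : ℕ → ℤ),
    (∀ m ∈ Icc 1 x, |s m| ≤ N) →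
    (energy h x s : ℝ) * N ≤ Real.log N ^ C * (x : ℝ) ^ (2 * h) →
    ∀ z : ℕ, Real.log N ^ B0 ≤ z → (z : ℝ) ≤ Real.log N ^ E → ∀ y : ℕ, y ≤ N →
    ∀ K : ℝ, 0 < K → ∀ G : ℕ → ℝ, (∀ m ∈ Icc 1 x, |G m| ≤ K) →
    ∑ q ∈ Icc 1 y, |∑ m ∈ Icc 1 x, G m * (LL (q + s m) - mdl z (q + s m))| ≤
      K * ((2 * N / Real.log N ^ U) * x) := by
  obtain ⟨B0, h0⟩ := one_mom h C U 0
  refine ⟨B0, fun E => ?_⟩
  obtain ⟨n1, h1⟩ := h0 E
  refine ⟨n1, fun N hN x s hs hE z hz1 hz2 y hy K hK G hG => ?_⟩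
  refine swap y x (fun q m => LL (q + s m) - mdl z (q + s m)) _ (fun ε hε => ?_) K hK G hG
  have h2 := h1 N hN x s hs hE z hz1 hz2 1 one_ne_zero y (by simpa using hy) 1 one_pos ε hε
  simpa using h2

/-- sizes -/
structure Sz (k B H C x : ℕ) (h : Fin k → ℕ) (N : Fin k → ℕ) (s : Fin k → ℕ → ℤ) : Prop where
  up : ∀ i, N i ≤ x ^ H
  low : ∀ i, x ≤ N i ^ H
  val : ∀ i, ∀ m ∈ Icc 1 x, |s i m| ≤ B * N i
  en : ∀ i, (energy (h i) x (s i) : ℝ) * N i ≤ Real.log x ^ C * (x : ℝ) ^ (2 * h i)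

/-- the range of the auxiliary variable -/
def Y (B : ℕ) {k : ℕ} (N : Fin k → ℕ) (i : Fin k) : ℕ := 2 * (B * N i) + 1

/-- the shifted family -/
def sh (B : ℕ) {k : ℕ} (N : Fin k → ℕ) (s : Fin k → ℕ → ℤ) (i : Fin k) (m : ℕ) : ℤ := s i m - B * N i - 1

lemma energy_sub (p x : ℕ) (s : ℕ → ℤ) (a : ℤ) : energy p x (fun m => s m - a) = energy p x s := by
  unfold energy
  congr 1
  apply filter_congr
  intro q _
  rw [sum_sub_distrib, sum_sub_distrib, sub_left_inj]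

lemma Y_pos (B : ℕ) {k : ℕ} (N : Fin k → ℕ) (i : Fin k) : 1 ≤ Y B N i := by unfold Y; omega

/-- comparison of the logarithms -/
lemma logs {x N H : ℕ} (hx : 2 ≤ x) (h1 : N ≤ x ^ H) (h2 : x ≤ N ^ H) :
    1 ≤ N ∧ 1 ≤ H ∧ Real.log x ≤ H * Real.log N ∧ Real.log N ≤ H * Real.log x := by
  have hH : 1 ≤ H := by
    by_contra h
    have h0 : H = 0 := by omega
    rw [h0, pow_zero] at h2
    omega
  have hN : 1 ≤ N := by
    by_contra h
    have h0 : N = 0 := by omega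
    rw [h0, zero_pow (by omega)] at h2
    omega
  refine ⟨hN, hH, ?_, ?_⟩
  · rw [← Real.log_pow]
    exact Real.log_le_log (by exact_mod_cast (by omega : 0 < x)) (by exact_mod_cast h2)
  · rw [← Real.log_pow]
    exact Real.log_le_log (by exact_mod_cast (by omega : 0 < N)) (by exact_mod_cast h1)

set_option maxHeartbeats 4000000 in
theorem dual_sys (k : ℕ) (h : Fin k → ℕ) (B H C U : ℕ) (hB : 1 ≤ B) : ∃ B0 : ℕ, ∀ E : ℕ, ∃ x0 : ℕ, ∀ x : ℕ, x0 ≤ x →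
    ∀ (N : Fin k → ℕ) (s : Fin k → ℕ → ℤ), Sz k B H C x h N s →
    ∀ z : ℕ, Real.log x ^ B0 ≤ z → (z : ℝ) ≤ Real.log x ^ E →
    ∀ w : ℕ → ℝ, (∀ m ∈ Icc 1 x, |w m| ≤ 1) →
    ∑ q ∈ Fintype.piFinset (fun i => Icc 1 (Y B N i)),
      |∑ m ∈ Icc 1 x, w m * (∏ i, LL (q i + sh B N s i m) - ∏ i, mdl z (q i + sh B N s i m))| ≤
      (x / Real.log x ^ U) * ∏ i, (Y B N i : ℝ) := by
  classical
  obtain ⟨U', hU'⟩ : ∃ U', U' = U + k + 1 := ⟨_, rfl⟩
  have hone := fun i => dual_one (h i) (C + 1) U'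
  choose b0 hb0 using hone
  refine ⟨univ.sup b0 + 1, fun E => ?_⟩
  have h1 := fun i => hb0 i (E + 1)
  choose n0 hn0 using h1
  obtain ⟨n2, h2⟩ := ev_L' ((2 * B + 2) * (H : ℝ) ^ (C + 1) + ((H : ℝ) + 1) ^ (univ.sup b0) + (H : ℝ) ^ (E + 1) +
    Real.log (2 * B + 2) + 4 * k * ((H : ℝ) + 2) ^ k * (H : ℝ) ^ U' + 2)
  obtain ⟨n3, h3⟩ := Vz_inv_small E
  refine ⟨(univ.sup n0 + 1) ^ H + n2 + n3 + 2, fun x hx N s hsz z hz1 hz2 w hw => ?_⟩
  have hL := h2 x (by omega)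
  obtain ⟨L, hLd⟩ : ∃ L, L = Real.log (x : ℝ) := ⟨_, rfl⟩
  have hV := h3 x (by omega) z
  have hval := hsz.val
  have hen := hsz.en
  rw [← hLd] at hL hV hz1 hz2 hen ⊢
  have q1 : (0 : ℝ) ≤ (2 * B + 2) * (H : ℝ) ^ (C + 1) := by positivity
  have q2 : (0 : ℝ) ≤ ((H : ℝ) + 1) ^ (univ.sup b0) := by positivity
  have q3 : (0 : ℝ) ≤ (H : ℝ) ^ (E + 1) := by positivity
  have q4 : (0 : ℝ) ≤ Real.log (2 * B + 2) := Real.log_nonneg (by have : (0 : ℝ) ≤ B := Nat.cast_nonneg _; linarith)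
  have q5 : (0 : ℝ) ≤ 4 * k * ((H : ℝ) + 2) ^ k * (H : ℝ) ^ U' := by positivity
  have hL2 : 2 ≤ L := by linarith
  have hL1 : 1 ≤ L := by linarith
  have hL0 : 0 < L := by linarith
  have hx2 : 2 ≤ x := by omega
  have hx0 : (0 : ℝ) < x := by exact_mod_cast (by omega : 0 < x)
  have hz1' : 1 ≤ z := by
    have : (1 : ℝ) ≤ z := (one_le_pow₀ hL1).trans hz1
    exact_mod_cast this
  have hVz := hV hz1' hz2
  have hBr : (1 : ℝ) ≤ B := by exact_mod_cast hB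
  -- one coordinate
  have hcoord : ∀ i, 1 ≤ N i ∧ 1 ≤ H ∧ L ≤ H * Real.log ((((2 * B + 2) * N i : ℕ)) : ℝ) ∧
      Real.log ((((2 * B + 2) * N i : ℕ)) : ℝ) ≤ (H + 1) * L ∧ n0 i ≤ (2 * B + 2) * N i := by
    intro i
    obtain ⟨a1, a2, a3, a4⟩ := logs hx2 (hsz.up i) (hsz.low i)
    rw [← hLd] at a3 a4
    have hN0 : (0 : ℝ) < N i := by exact_mod_cast a1
    have e1 : Real.log ((((2 * B + 2) * N i : ℕ)) : ℝ) = Real.log (2 * B + 2) + Real.log (N i) := by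
      push_cast
      rw [Real.log_mul (by positivity) hN0.ne']
    have hH0 : (0 : ℝ) ≤ H := Nat.cast_nonneg _
    refine ⟨a1, a2, ?_, ?_, ?_⟩
    · rw [e1]
      nlinarith [mul_nonneg hH0 q4]
    · rw [e1]
      nlinarith
    · have e2 : univ.sup n0 + 1 ≤ N i := by
        by_contra hcon
        push Not at hcon
        have e3 : N i ^ H ≤ (univ.sup n0) ^ H := Nat.pow_le_pow_left (by omega) H
        have e4 : (univ.sup n0) ^ H ≤ (univ.sup n0 + 1) ^ H := Nat.pow_le_pow_left (by omega) H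
        have e5 := hsz.low i
        omega
      have e3 : n0 i ≤ univ.sup n0 := le_sup (f := n0) (mem_univ i)
      have e4 : N i ≤ (2 * B + 2) * N i := Nat.le_mul_of_pos_left _ (by omega)
      omega
  obtain ⟨δ, hδ⟩ : ∃ δ : ℝ, δ = 4 * (H : ℝ) ^ U' * x / L ^ U' := ⟨_, rfl⟩
  have hδ0 : 0 ≤ δ := by rw [hδ]; positivity
  have hshb : ∀ i, ∀ m ∈ Icc 1 x, |sh B N s i m| ≤ (((2 * B + 2) * N i : ℕ) : ℤ) := by
    intro i m hm
    obtain ⟨a1, _, _, _, _⟩ := hcoord i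
    have e1 := hval i m hm
    unfold sh
    push_cast
    have e2 : (1 : ℤ) ≤ N i := by exact_mod_cast a1
    have e3 : (0 : ℤ) ≤ B * N i := by positivity
    rw [abs_le] at e1 ⊢
    constructor <;> nlinarith [e1.1, e1.2]
  have hYle : ∀ i, Y B N i ≤ (2 * B + 2) * N i := by
    intro i
    obtain ⟨a1, _, _, _, _⟩ := hcoord i
    unfold Y
    nlinarith
  have hc1 : ∀ i, ∀ K : ℝ, 0 < K → ∀ G : ℕ → ℝ, (∀ m ∈ Icc 1 x, |G m| ≤ K) →
      ∑ v ∈ Icc 1 (Y B N i), |∑ m ∈ Icc 1 x, G m * (LL (v + sh B N s i m) - mdl z (v + sh B N s i m))| ≤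
        K * (δ * (Y B N i : ℝ)) := by
    intro i K hK G hG
    obtain ⟨a1, a2, a3, a4, a5⟩ := hcoord i
    obtain ⟨ℓ, hℓ⟩ : ∃ ℓ, ℓ = Real.log ((((2 * B + 2) * N i : ℕ)) : ℝ) := ⟨_, rfl⟩
    rw [← hℓ] at a3 a4
    have hHr : (1 : ℝ) ≤ H := by exact_mod_cast a2
    have hℓ0 : 0 < ℓ := by
      by_contra hcon
      push Not at hcon
      nlinarith
    have key := hn0 i ((2 * B + 2) * N i) a5 x (sh B N s i) (hshb i) (by
      rw [← hℓ]
      have e1 : energy (h i) x (sh B N s i) = energy (h i) x (s i) := by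
        have : sh B N s i = fun m => s i m - (B * N i + 1) := by
          funext m
          unfold sh
          ring
        rw [this, energy_sub]
      rw [e1]
      push_cast
      have e2 : L ^ C ≤ (H * ℓ) ^ C := pow_le_pow_left₀ hL0.le a3 C
      have e3 : (2 * B + 2) * (H : ℝ) ^ C ≤ ℓ := by
        have f1 : (2 * B + 2) * (H : ℝ) ^ (C + 1) ≤ L := by linarith
        have f2 : (H : ℝ) * ((2 * B + 2) * (H : ℝ) ^ C) ≤ H * ℓ := by
          calc (H : ℝ) * ((2 * B + 2) * (H : ℝ) ^ C) = (2 * B + 2) * (H : ℝ) ^ (C + 1) := by ring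
            _ ≤ L := f1
            _ ≤ H * ℓ := a3
        exact le_of_mul_le_mul_left f2 (by linarith)
      calc (energy (h i) x (s i) : ℝ) * ((2 * B + 2) * N i) = (2 * B + 2) * (energy (h i) x (s i) * N i) := by ring
        _ ≤ (2 * B + 2) * (L ^ C * (x : ℝ) ^ (2 * h i)) := mul_le_mul_of_nonneg_left (hen i) (by positivity)
        _ ≤ (2 * B + 2) * ((H * ℓ) ^ C * (x : ℝ) ^ (2 * h i)) := by gcongr
        _ = ((2 * B + 2) * (H : ℝ) ^ C) * (ℓ ^ C * (x : ℝ) ^ (2 * h i)) := by rw [mul_pow]; ring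
        _ ≤ ℓ * (ℓ ^ C * (x : ℝ) ^ (2 * h i)) := mul_le_mul_of_nonneg_right e3 (by positivity)
        _ = ℓ ^ (C + 1) * (x : ℝ) ^ (2 * h i) := by ring) z (by
      rw [← hℓ]
      refine le_trans ?_ hz1
      have e1 : ((H : ℝ) + 1) ^ (b0 i) ≤ ((H : ℝ) + 1) ^ (univ.sup b0) :=
        pow_le_pow_right₀ (by linarith) (le_sup (f := b0) (mem_univ i))
      calc ℓ ^ (b0 i) ≤ ((H + 1) * L) ^ (b0 i) := pow_le_pow_left₀ hℓ0.le a4 _
        _ = ((H : ℝ) + 1) ^ (b0 i) * L ^ (b0 i) := by rw [mul_pow]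
        _ ≤ L * L ^ (univ.sup b0) := by
            apply mul_le_mul _ _ (by positivity) hL0.le
            · linarith
            · exact pow_le_pow_right₀ hL1 (le_sup (f := b0) (mem_univ i))
        _ = L ^ (univ.sup b0 + 1) := by ring) (by
      rw [← hℓ]
      refine hz2.trans ?_
      have e3 : (H : ℝ) ^ E ≤ ℓ := by
        have f2 : (H : ℝ) * (H : ℝ) ^ E ≤ H * ℓ := by
          calc (H : ℝ) * (H : ℝ) ^ E = (H : ℝ) ^ (E + 1) := by ring
            _ ≤ L := by linarith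
            _ ≤ H * ℓ := a3
        exact le_of_mul_le_mul_left f2 (by linarith)
      calc L ^ E ≤ (H * ℓ) ^ E := pow_le_pow_left₀ hL0.le a3 E
        _ = (H : ℝ) ^ E * ℓ ^ E := by rw [mul_pow]
        _ ≤ ℓ * ℓ ^ E := mul_le_mul_of_nonneg_right e3 (by positivity)
        _ = ℓ ^ (E + 1) := by ring) (Y B N i) (hYle i) K hK G hG
    refine key.trans ?_
    apply mul_le_mul_of_nonneg_left _ hK.le
    rw [← hℓ]
    have e1 : (((2 * B + 2) * N i : ℕ) : ℝ) ≤ 2 * (Y B N i : ℝ) := by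
      have : (2 * B + 2) * N i ≤ 2 * Y B N i := by unfold Y; nlinarith
      exact_mod_cast this
    have e2 : 1 / ℓ ^ U' ≤ (H : ℝ) ^ U' / L ^ U' := by
      rw [div_le_div_iff₀ (by positivity) (by positivity), one_mul, ← mul_pow]
      exact pow_le_pow_left₀ hL0.le a3 U'
    calc 2 * (((2 * B + 2) * N i : ℕ) : ℝ) / ℓ ^ U' * x = (2 * (((2 * B + 2) * N i : ℕ) : ℝ) * x) * (1 / ℓ ^ U') := by ring
      _ ≤ (2 * (2 * (Y B N i : ℝ)) * x) * ((H : ℝ) ^ U' / L ^ U') := by gcongr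
      _ = δ * (Y B N i : ℝ) := by rw [hδ]; ring
  have hvals : ∀ i, ∀ m ∈ Icc 1 x, ∀ v ∈ Icc 1 (Y B N i), ((v : ℤ) + sh B N s i m).natAbs ≤ 2 * ((2 * B + 2) * N i) := by
    intro i m hm v hv
    rw [mem_Icc] at hv
    have e1 := hshb i m hm
    have e2 := hYle i
    have e3 : (sh B N s i m).natAbs ≤ (2 * B + 2) * N i := by
      have : ((sh B N s i m).natAbs : ℤ) ≤ (((2 * B + 2) * N i : ℕ) : ℤ) := by rw [Int.natCast_natAbs]; exact e1
      exact_mod_cast this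
    have := Int.natAbs_add_le (v : ℤ) (sh B N s i m)
    rw [Int.natAbs_natCast] at this
    omega
  have hP : ∀ i, ∀ m ∈ Icc 1 x, ∀ v ∈ Icc 1 (Y B N i), |LL (v + sh B N s i m)| ≤ (H + 2) * L := by
    intro i m hm v hv
    obtain ⟨a1, a2, a3, a4, a5⟩ := hcoord i
    rw [abs_of_nonneg (LL_nonneg _)]
    have e0 : 1 ≤ (2 * B + 2) * N i := by nlinarith
    refine (LL_le _ (2 * ((2 * B + 2) * N i)) (by omega) (hvals i m hm v hv)).trans ?_
    rw [Nat.cast_mul, Real.log_mul (by norm_num) (by exact_mod_cast (by omega : (2 * B + 2) * N i ≠ 0))]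
    have e1 : Real.log ((2 : ℕ) : ℝ) ≤ 1 := by
      have := Real.log_two_lt_d9
      push_cast
      linarith
    linarith
  have hQ : ∀ i, ∀ m ∈ Icc 1 x, ∀ v ∈ Icc 1 (Y B N i), |mdl z (v + sh B N s i m)| ≤ (H + 2) * L := by
    intro i m hm v hv
    rw [abs_of_nonneg (mdl_nonneg _ _)]
    have hH0 : (0 : ℝ) ≤ H := Nat.cast_nonneg _
    exact (mdl_le _ _).trans (by nlinarith)
  have hHn : (0 : ℝ) ≤ H := Nat.cast_nonneg _
  have key := tele x (fun i => Y B N i) (fun i => Y_pos B N i) (fun i m v => LL (v + sh B N s i m))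
    (fun i m v => mdl z (v + sh B N s i m)) ((H + 2) * L) δ (by nlinarith) hδ0 hP hQ hc1 univ 1 one_pos
    (fun m _ => w m) (fun m hm _ _ => hw m hm) (fun _ _ _ _ _ => rfl)
  refine key.trans ?_
  rw [card_univ, Fintype.card_fin]
  apply mul_le_mul_of_nonneg_right _ (prod_nonneg fun i _ => Nat.cast_nonneg _)
  have e : (k : ℝ) * (1 * ((H + 2) * L) ^ k * δ) = (4 * k * ((H : ℝ) + 2) ^ k * (H : ℝ) ^ U' / L) * (x / L ^ U) := by
    rw [hδ, mul_pow, hU', pow_succ L (U + k), pow_add L U k]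
    field_simp
  rw [e]
  have h5 : (4 * k * ((H : ℝ) + 2) ^ k * (H : ℝ) ^ U' / L : ℝ) ≤ 1 := by
    rw [div_le_one hL0]
    linarith
  calc (4 * k * ((H : ℝ) + 2) ^ k * (H : ℝ) ^ U' / L : ℝ) * (x / L ^ U) ≤ 1 * (x / L ^ U) :=
        mul_le_mul_of_nonneg_right h5 (by positivity)
    _ = _ := one_mul _

end Pool.Agent.Helper896.DU
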