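import Pool.Agent.Helper896.DU.A1
import Pool.Agent.TH935.TG2

set_option autoImplicit false

/-! Thin sets of arguments: from weighted sums to numbers of prime values. -/

namespace Pool.Agent.Helper896.DU
open Finset
open Pool.Agent.H373R2.T7
open Pool.Agent.TH935.TF
open Pool.Agent.W93.GB (pp pp_nonneg)
open Pool.Agent.H560R3.GB (choose_delta)
open Pool.Agent.TH935.TG (Vz_le_one)

variable {k : ℕ}

open Classical in
/-- the number of `m` in `M` at which all values are primes up to sign -/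
noncomputable def cnF (F : Fin k → ℕ → ℤ) (M : Finset ℕ) : ℕ := (M.filter (fun m : ℕ => ∀ i, (F i m).natAbs.Prime)).card

/-- the weighted number -/
noncomputable def WtF (F : Fin k → ℕ → ℤ) (M : Finset ℕ) : ℝ := ∑ m ∈ M, ∏ i, LL (F i m)

open Classical in
/-- the number of `m` in `M` at which all values are free of prime factors `≤ z` -/
noncomputable def rgF (z : ℕ) (F : Fin k → ℕ → ℤ) (M : Finset ℕ) : ℕ :=
  (M.filter (fun m : ℕ => ∀ i, ∀ p ∈ pz z, ¬ (p : ℤ) ∣ F i m)).card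

open Classical in
/-- the number of `m` in `M` at which some value is small -/
noncomputable def smF (t : Fin k → ℕ) (F : Fin k → ℕ → ℤ) (M : Finset ℕ) : ℕ :=
  (M.filter (fun m : ℕ => ∃ i, (F i m).natAbs ≤ t i)).card

/-- the weight of the proper prime powers -/
noncomputable def ppF (F : Fin k → ℕ → ℤ) (M : Finset ℕ) : ℝ := ∑ m ∈ M, ∑ i, pp (F i m).natAbs

lemma ppF_nonneg (F : Fin k → ℕ → ℤ) (M : Finset ℕ) : 0 ≤ ppF F M :=
  sum_nonneg fun _ _ => sum_nonneg fun _ _ => pp_nonneg _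

lemma wtF_le (G : Fin k → ℝ) (F : Fin k → ℕ → ℤ) (M : Finset ℕ) (hG1 : ∀ i, 1 ≤ G i)
    (hG : ∀ i, ∀ m ∈ M, LL (F i m) ≤ G i) : WtF F M ≤ (∏ i, G i) * (cnF F M + ppF F M) := by
  classical
  have hG0 : ∀ i, 0 ≤ G i := fun i => by linarith [hG1 i]
  have hPG : 0 ≤ ∏ i, G i := prod_nonneg fun i _ => hG0 i
  have h1 : ∀ m ∈ M, ∏ i, LL (F i m) ≤
      (∏ i, G i) * ((if ∀ i, (F i m).natAbs.Prime then 1 else 0) + ∑ i, pp (F i m).natAbs) := by
    intro m hm
    have hpp0 : 0 ≤ ∑ i, pp (F i m).natAbs := sum_nonneg fun i _ => pp_nonneg _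
    by_cases hp : ∀ i, (F i m).natAbs.Prime
    · rw [if_pos hp]
      have h2 : ∏ i, LL (F i m) ≤ ∏ i, G i := prod_le_prod (fun i _ => LL_nonneg _) (fun i _ => hG i m hm)
      nlinarith
    · rw [if_neg hp, zero_add]
      push Not at hp
      obtain ⟨i₀, hi₀⟩ := hp
      have e1 : LL (F i₀ m) = pp (F i₀ m).natAbs := by
        unfold pp LL
        rw [lamP_nat, if_neg hi₀, sub_zero]
      rw [← mul_prod_erase univ (fun i => LL (F i m)) (mem_univ i₀)]
      rw [e1]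
      have e2 : ∏ i ∈ univ.erase i₀, LL (F i m) ≤ ∏ i, G i := by
        rw [← mul_prod_erase univ G (mem_univ i₀)]
        have e4 : ∏ i ∈ univ.erase i₀, LL (F i m) ≤ ∏ i ∈ univ.erase i₀, G i :=
          prod_le_prod (fun i _ => LL_nonneg _) (fun i _ => hG i m hm)
        have e5 : 0 ≤ ∏ i ∈ univ.erase i₀, G i := prod_nonneg fun i _ => hG0 i
        nlinarith [hG1 i₀]
      have e3 : pp (F i₀ m).natAbs ≤ ∑ i, pp (F i m).natAbs :=
        single_le_sum (f := fun i => pp (F i m).natAbs) (fun i _ => pp_nonneg _) (mem_univ i₀)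
      rw [mul_comm]
      exact mul_le_mul e2 e3 (pp_nonneg _) hPG
  unfold WtF
  refine (sum_le_sum h1).trans (le_of_eq ?_)
  rw [← mul_sum, sum_add_distrib]
  congr 2
  unfold cnF
  rw [card_filter]
  push_cast
  rfl

lemma cnF_le (t : Fin k → ℕ) (ht : ∀ i, 2 ≤ t i) (F : Fin k → ℕ → ℤ) (M : Finset ℕ) :
    (cnF F M : ℝ) ≤ smF t F M + WtF F M / ∏ i, Real.log (t i) := by
  classical
  have hl : ∀ i, 0 < Real.log (t i) := fun i => Real.log_pos (by exact_mod_cast (by have := ht i; omega : 1 < t i))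
  have hP : 0 < ∏ i, Real.log (t i) := prod_pos fun i _ => hl i
  obtain ⟨P3, hP3⟩ : ∃ P3 : Finset ℕ, P3 = M.filter (fun m : ℕ => ∀ i, (F i m).natAbs.Prime ∧ t i < (F i m).natAbs) := ⟨_, rfl⟩
  have hsub : M.filter (fun m : ℕ => ∀ i, (F i m).natAbs.Prime) ⊆
      M.filter (fun m : ℕ => ∃ i, (F i m).natAbs ≤ t i) ∪ P3 := by
    intro m hm
    rw [mem_filter] at hm
    rw [mem_union, hP3, mem_filter, mem_filter]
    by_cases h : ∃ i, (F i m).natAbs ≤ t i
    · exact Or.inl ⟨hm.1, h⟩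
    · push Not at h
      exact Or.inr ⟨hm.1, fun i => ⟨hm.2 i, h i⟩⟩
  have hc3 : (P3.card : ℝ) * ∏ i, Real.log (t i) ≤ WtF F M := by
    rw [hP3, card_filter]
    push_cast
    rw [sum_mul]
    unfold WtF
    apply sum_le_sum
    intro m _
    split_ifs with h
    · rw [one_mul]
      apply prod_le_prod (fun i _ => (hl i).le)
      intro i _
      unfold LL
      rw [ArithmeticFunction.vonMangoldt_apply_prime (h i).1]
      exact Real.log_le_log (by exact_mod_cast (by have := ht i; omega : 0 < t i)) (by exact_mod_cast (h i).2.le)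
    · rw [zero_mul]
      exact prod_nonneg fun i _ => LL_nonneg _
  have h4 : cnF F M ≤ smF t F M + P3.card := by
    unfold cnF smF
    exact (card_le_card hsub).trans (card_union_le _ _)
  have h5 : (P3.card : ℝ) ≤ WtF F M / ∏ i, Real.log (t i) := by
    rw [le_div_iff₀ hP]
    exact hc3
  have h6 : (cnF F M : ℝ) ≤ ((smF t F M + P3.card : ℕ) : ℝ) := by exact_mod_cast h4
  push_cast at h6
  linarith

lemma sum_mdlF (F : Fin k → ℕ → ℤ) (z : ℕ) (M : Finset ℕ) :
    ∑ m ∈ M, ∏ i, mdl z (F i m) = (Vz z)⁻¹ ^ k * rgF z F M := by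
  classical
  unfold rgF
  rw [card_filter]
  push_cast
  rw [mul_sum]
  apply sum_congr rfl
  intro m _
  by_cases h5 : ∀ i, ∀ p ∈ pz z, ¬ (p : ℤ) ∣ F i m
  · rw [if_pos h5, mul_one]
    have h7 : ∀ i : Fin k, mdl z (F i m) = (Vz z)⁻¹ := fun i => if_pos (h5 i)
    rw [prod_congr rfl (fun i _ => h7 i), prod_const, card_univ, Fintype.card_fin]
  · rw [if_neg h5, mul_zero]
    push Not at h5
    obtain ⟨i, p, hp, hi⟩ := h5
    exact prod_eq_zero (mem_univ i) (if_neg (fun h => h p hp hi))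

/-- the algebra of the conversion: `Wt ≤ (1 + δ)^k P (c + p)` and `c ≤ s + Wt / ((1 - δ)^k P)` -/
lemma conv_alg (k : ℕ) (ε δ P Q W c p s : ℝ) (hδ0 : 0 < δ) (hδ1 : δ < 1)
    (hδa : (1 - ε) * (1 + δ) ^ (k + 1) ≤ 1 - δ) (hδb : 1 + 2 * δ ≤ (1 + ε) * (1 - δ) ^ (k + 1))
    (hP : 0 < P) (hQ : 0 < Q) (hc : 0 ≤ c) (hW : |W - Q| ≤ δ / 2 * Q)
    (h1 : W ≤ (1 + δ) ^ k * P * (c + p)) (hp : (1 + δ) ^ k * P * p ≤ δ / 2 * Q)
    (h2 : c ≤ s + W / ((1 - δ) ^ k * P)) (hs : P * s ≤ δ / 2 * Q) :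
    |c - Q / P| ≤ ε * (Q / P) := by
  obtain ⟨w1, w2⟩ := abs_le.1 hW
  have hPc : 0 ≤ P * c := by positivity
  have g1 : (1 - ε) * Q ≤ P * c := by
    have e5 : (1 - δ) * Q ≤ (1 + δ) ^ (k + 1) * (P * c) := by
      have f1 : (1 + δ) ^ k * P * (c + p) = (1 + δ) ^ k * (P * c) + (1 + δ) ^ k * P * p := by ring
      have f2 : (1 + δ) ^ k * (P * c) ≤ (1 + δ) ^ (k + 1) * (P * c) := by
        apply mul_le_mul_of_nonneg_right _ hPc
        exact pow_le_pow_right₀ (by linarith) (by omega)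
      linarith
    have p1 : 0 < (1 + δ) ^ (k + 1) := by positivity
    have h6 : (1 - ε) * (1 + δ) ^ (k + 1) * Q ≤ (1 - δ) * Q := mul_le_mul_of_nonneg_right hδa hQ.le
    have h7 : (1 + δ) ^ (k + 1) * ((1 - ε) * Q) ≤ (1 + δ) ^ (k + 1) * (P * c) := by
      have : (1 + δ) ^ (k + 1) * ((1 - ε) * Q) = (1 - ε) * (1 + δ) ^ (k + 1) * Q := by ring
      linarith
    exact le_of_mul_le_mul_left h7 p1
  have hδk : 0 < (1 - δ) ^ k := by
    have : 0 < 1 - δ := by linarith
    positivity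
  have g2 : P * c ≤ (1 + ε) * Q := by
    have c3 : (1 - δ) ^ k * (P * c) ≤ δ / 2 * Q + W := by
      have f1 : P * c ≤ P * s + P * (W / ((1 - δ) ^ k * P)) := by
        rw [← mul_add]
        exact mul_le_mul_of_nonneg_left h2 hP.le
      have f2 : (1 - δ) ^ k ≤ 1 := pow_le_one₀ (by linarith) (by linarith)
      have f3 : (1 - δ) ^ k * (P * s) ≤ δ / 2 * Q := by
        rcases le_or_gt 0 (P * s) with h | h
        · exact (mul_le_of_le_one_left h f2).trans hs
        · have : (1 - δ) ^ k * (P * s) ≤ 0 := mul_nonpos_of_nonneg_of_nonpos hδk.le h.le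
          have h9 : 0 ≤ δ / 2 * Q := by positivity
          linarith
      have f4 : (1 - δ) ^ k * (P * (W / ((1 - δ) ^ k * P))) = W := by field_simp
      calc (1 - δ) ^ k * (P * c) ≤ (1 - δ) ^ k * (P * s + P * (W / ((1 - δ) ^ k * P))) :=
            mul_le_mul_of_nonneg_left f1 hδk.le
        _ = (1 - δ) ^ k * (P * s) + W := by rw [mul_add, f4]
        _ ≤ _ := by linarith
    have c4 : (1 + 2 * δ) * Q ≤ (1 + ε) * (1 - δ) ^ (k + 1) * Q := mul_le_mul_of_nonneg_right hδb hQ.le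
    have c5 : (1 - δ) ^ (k + 1) ≤ (1 - δ) ^ k := pow_le_pow_of_le_one (by linarith) (by linarith) (by omega)
    have hε : 0 ≤ 1 + ε := by
      by_contra hcon
      push Not at hcon
      have h8 : (1 + ε) * (1 - δ) ^ (k + 1) ≤ 0 := by
        apply mul_nonpos_of_nonpos_of_nonneg hcon.le
        have : 0 ≤ 1 - δ := by linarith
        positivity
      linarith
    have c6 : (1 + ε) * (1 - δ) ^ (k + 1) * Q ≤ (1 + ε) * (1 - δ) ^ k * Q := by gcongr
    have c7 : (1 - δ) ^ k * (P * c) ≤ (1 - δ) ^ k * ((1 + ε) * Q) := by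
      have e1 : (1 - δ) ^ k * ((1 + ε) * Q) = (1 + ε) * (1 - δ) ^ k * Q := by ring
      have e2 : 0 ≤ δ * Q := by positivity
      rw [e1]
      linarith
    exact le_of_mul_le_mul_left c7 hδk
  have e2 : c = P * c / P := by field_simp
  rw [e2, ← sub_div, abs_div, abs_of_pos hP, ← mul_div_assoc]
  apply div_le_div_of_nonneg_right _ hP.le
  rw [abs_le]
  constructor <;> linarith

end Pool.Agent.Helper896.DU
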