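import Pool.Agent.Helper896.DU.A2

set_option autoImplicit false

/-! Thin sets of arguments: from weighted sums to numbers of prime values, sizes. -/

namespace Pool.Agent.Helper896.DU
open Finset
open Pool.Agent.H373R2.T7
open Pool.Agent.TH935.TF
open Pool.Agent.W93.GB (pp pp_nonneg)
open Pool.Agent.H560R3.GB (choose_delta)

variable {k : ℕ}

/-- the threshold for small values -/
noncomputable def tt (W x : ℕ) (N : Fin k → ℕ) (i : Fin k) : ℕ := ⌈(N i : ℝ) / Real.log x ^ W⌉₊

set_option maxHeartbeats 4000000 in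
theorem conv2 (k A B H W : ℕ) (hB : 1 ≤ B) (ε : ℝ) (hε : 0 < ε) : ∃ x0 : ℕ, ∀ x : ℕ, x0 ≤ x →
    ∀ N : Fin k → ℕ, (∀ i, N i ≤ x ^ H) → (∀ i, x ≤ N i ^ H) → ∀ (F : Fin k → ℕ → ℤ) (M : Finset ℕ),
    (∀ i, ∀ m ∈ M, (F i m).natAbs ≤ 2 * B * N i) → ∀ Q : ℝ, (x : ℝ) / Real.log x ^ A ≤ Q →
    |WtF F M - Q| ≤ x / Real.log x ^ (A + 1) → ppF F M ≤ x / Real.log x ^ (A + k + 1) →
    (smF (tt W x N) F M : ℝ) ≤ x / Real.log x ^ (A + k + 1) →
    |(cnF F M : ℝ) - Q / ∏ i, Real.log (N i)| ≤ ε * (Q / ∏ i, Real.log (N i)) := by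
  obtain ⟨δ, hδ0, hδ1, hδa, hδb⟩ := choose_delta k ε hε
  obtain ⟨n1, h1⟩ := ev_loglog W (δ / (H + 1)) (by positivity)
  obtain ⟨n2, h2⟩ := ev_L' (2 / δ + 2 * (2 ^ k * (H : ℝ) ^ k) / δ + H * Real.log (2 * B) / δ + H * 4 + 4 * (H + 1) + 2)
  obtain ⟨n3, h3⟩ := ev_loglog W (1 / (2 * (H + 1))) (by positivity)
  refine ⟨n1 + n2 + n3 + 3, fun x hx N hup hlow F M hF Q hQlow hW hpp hsm => ?_⟩
  have b1 := h1 x (by omega)
  have b2 := h2 x (by omega)
  have b3 := h3 x (by omega)
  obtain ⟨L, hL⟩ : ∃ L, L = Real.log (x : ℝ) := ⟨_, rfl⟩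
  rw [← hL] at b1 b2 b3 hQlow hW hpp hsm
  have hBr : (1 : ℝ) ≤ B := by exact_mod_cast hB
  have hH0 : (0 : ℝ) ≤ H := Nat.cast_nonneg _
  have q1 : 0 ≤ 2 / δ := by positivity
  have q2 : 0 ≤ 2 * (2 ^ k * (H : ℝ) ^ k) / δ := by positivity
  have q30 : 0 ≤ Real.log (2 * B) := Real.log_nonneg (by linarith)
  have q3 : 0 ≤ H * Real.log (2 * B) / δ := by positivity
  have hL4 : 2 ≤ L := by linarith
  have hL1 : 1 ≤ L := by linarith
  have hL0 : 0 < L := by linarith
  have hx0 : (0 : ℝ) < x := by exact_mod_cast (by omega : 0 < x)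
  have hlg : ∀ i, 1 ≤ N i ∧ 1 ≤ H ∧ L ≤ H * Real.log (N i) ∧ Real.log (N i) ≤ H * L := by
    intro i
    have := logs (by omega : 2 ≤ x) (hup i) (hlow i)
    rwa [← hL] at this
  have hlN1 : ∀ i, 1 ≤ Real.log (N i) := by
    intro i
    obtain ⟨a1, a2, a3, a4⟩ := hlg i
    have hHr : (1 : ℝ) ≤ H := by exact_mod_cast a2
    by_contra hcon
    push Not at hcon
    have : (H : ℝ) * Real.log (N i) ≤ H := by nlinarith
    linarith
  have hP0 : 0 < ∏ i, Real.log (N i) := prod_pos fun i _ => by linarith [hlN1 i]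
  have hP1 : ∏ i, Real.log (N i) ≤ (H : ℝ) ^ k * L ^ k := by
    rw [← mul_pow]
    calc ∏ i, Real.log (N i) ≤ ∏ _i : Fin k, (H * L) :=
          prod_le_prod (fun i _ => by linarith [hlN1 i]) (fun i _ => (hlg i).2.2.2)
      _ = (H * L) ^ k := by rw [prod_const, card_univ, Fintype.card_fin]
  have hQ0 : 0 < Q := lt_of_lt_of_le (by positivity) hQlow
  have hsmall : ∀ a : ℝ, 0 ≤ a → a * 2 ≤ L * δ → a * (x / L ^ (A + 1)) ≤ δ / 2 * Q := by
    intro a ha h
    calc a * (x / L ^ (A + 1)) = (a / L) * (x / L ^ A) := by rw [pow_succ]; field_simp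
      _ ≤ (δ / 2) * (x / L ^ A) := by
          apply mul_le_mul_of_nonneg_right _ (by positivity)
          rw [div_le_iff₀ hL0]
          linarith
      _ ≤ δ / 2 * Q := mul_le_mul_of_nonneg_left hQlow (by positivity)
  have hWQ : |WtF F M - Q| ≤ δ / 2 * Q := by
    refine hW.trans ?_
    have := hsmall 1 zero_le_one (by
      have : 2 / δ ≤ L := by nlinarith
      rw [div_le_iff₀ hδ0] at this
      linarith)
    linarith
  have hkey : 2 ^ k * (H : ℝ) ^ k * 2 ≤ L * δ := by
    have : 2 * (2 ^ k * (H : ℝ) ^ k) / δ ≤ L := by nlinarith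
    rw [div_le_iff₀ hδ0] at this
    linarith
  have hLk : L ^ k * (x / L ^ (A + k + 1)) = x / L ^ (A + 1) := by
    rw [show A + k + 1 = k + (A + 1) by ring, pow_add L k (A + 1)]
    field_simp
  have h2k : (1 : ℝ) ≤ 2 ^ k := one_le_pow₀ (by norm_num)
  apply conv_alg k ε δ (∏ i, Real.log (N i)) Q (WtF F M) (cnF F M) (ppF F M) (smF (tt W x N) F M) hδ0 hδ1 hδa hδb hP0 hQ0
    (Nat.cast_nonneg _) hWQ
  · -- upper bound for the weighted number
    have e1 := wtF_le (fun i => (1 + δ) * Real.log (N i)) F M (fun i => by nlinarith [hlN1 i]) (by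
      intro i m hm
      obtain ⟨a1, a2, a3, a4⟩ := hlg i
      have hN0 : (0 : ℝ) < N i := by exact_mod_cast a1
      have e2 := LL_le (F i m) (2 * B * N i) (by nlinarith) (hF i m hm)
      refine e2.trans ?_
      push_cast
      rw [Real.log_mul (by positivity) hN0.ne']
      have e3 : H * Real.log (2 * B) / δ ≤ L := by nlinarith
      rw [div_le_iff₀ hδ0] at e3
      have hHr : (1 : ℝ) ≤ H := by exact_mod_cast a2
      have e4 : (H : ℝ) * Real.log (2 * B) ≤ H * (δ * Real.log (N i)) := by nlinarith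
      have e5 := le_of_mul_le_mul_left e4 (by linarith)
      linarith)
    rw [prod_mul_distrib, prod_const, card_univ, Fintype.card_fin] at e1
    exact e1
  · calc (1 + δ) ^ k * (∏ i, Real.log (N i)) * ppF F M ≤ 2 ^ k * ((H : ℝ) ^ k * L ^ k) * (x / L ^ (A + k + 1)) := by
          have f1 : (1 + δ) ^ k ≤ 2 ^ k := pow_le_pow_left₀ (by linarith) (by linarith) k
          apply mul_le_mul _ hpp (ppF_nonneg F M) (by positivity)
          exact mul_le_mul f1 hP1 hP0.le (by positivity)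
      _ = (2 ^ k * (H : ℝ) ^ k) * (L ^ k * (x / L ^ (A + k + 1))) := by ring
      _ = (2 ^ k * (H : ℝ) ^ k) * (x / L ^ (A + 1)) := by rw [hLk]
      _ ≤ δ / 2 * Q := hsmall _ (by positivity) hkey
  · -- upper bound for the number
    have hlog2 : ∀ i, 2 ≤ tt W x N i ∧ (1 - δ) * Real.log (N i) ≤ Real.log (tt W x N i) := by
      intro i
      obtain ⟨a1, a2, a3, a4⟩ := hlg i
      have hHr : (1 : ℝ) ≤ H := by exact_mod_cast a2
      have hN0 : (0 : ℝ) < N i := by exact_mod_cast a1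
      have d1 : (N i : ℝ) / L ^ W ≤ tt W x N i := by unfold tt; rw [← hL]; exact Nat.le_ceil _
      have d2 : Real.log ((N i : ℝ) / L ^ W) = Real.log (N i) - W * Real.log L := by
        rw [Real.log_div hN0.ne' (by positivity), Real.log_pow]
      have hlN := hlN1 i
      constructor
      · have d3 : Real.log 2 ≤ Real.log ((N i : ℝ) / L ^ W) := by
          rw [d2]
          have d4 : W * Real.log L ≤ 1 / (2 * (H + 1)) * L := b3
          have d5 : 1 / (2 * ((H : ℝ) + 1)) * L ≤ Real.log (N i) / 2 := by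
            rw [one_div, inv_mul_le_iff₀ (by positivity)]
            nlinarith
          have d6 : Real.log 2 ≤ Real.log (N i) / 2 := by
            have d7 := Real.log_two_lt_d9
            have d8 : (H : ℝ) * 4 ≤ H * Real.log (N i) := by linarith
            have d9 := le_of_mul_le_mul_left d8 (by linarith)
            linarith
          linarith
        have d4 : (2 : ℝ) ≤ (N i : ℝ) / L ^ W := (Real.log_le_log_iff (by norm_num) (by positivity)).1 d3
        have : (2 : ℝ) ≤ tt W x N i := d4.trans d1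
        exact_mod_cast this
      · have d3 : Real.log ((N i : ℝ) / L ^ W) ≤ Real.log (tt W x N i) := Real.log_le_log (by positivity) d1
        rw [d2] at d3
        have d4 : W * Real.log L ≤ δ / (H + 1) * L := b1
        have d5 : δ / ((H : ℝ) + 1) * L ≤ δ * Real.log (N i) := by
          rw [div_mul_eq_mul_div, div_le_iff₀ (by positivity)]
          nlinarith
        linarith
    have e1 := cnF_le (tt W x N) (fun i => (hlog2 i).1) F M
    refine e1.trans ?_
    have hW0 : 0 ≤ WtF F M := sum_nonneg fun _ _ => prod_nonneg fun _ _ => LL_nonneg _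
    have hδp : 0 < 1 - δ := by linarith
    have e2 : (1 - δ) ^ k * ∏ i, Real.log (N i) ≤ ∏ i, Real.log (tt W x N i) := by
      calc (1 - δ) ^ k * ∏ i, Real.log (N i) = ∏ i, ((1 - δ) * Real.log (N i)) := by
            rw [prod_mul_distrib, prod_const, card_univ, Fintype.card_fin]
        _ ≤ _ := prod_le_prod (fun i _ => by have := hlN1 i; positivity) (fun i _ => (hlog2 i).2)
    have e3 : WtF F M / ∏ i, Real.log (tt W x N i) ≤ WtF F M / ((1 - δ) ^ k * ∏ i, Real.log (N i)) :=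
      div_le_div_of_nonneg_left hW0 (by positivity) e2
    linarith
  · calc (∏ i, Real.log (N i)) * (smF (tt W x N) F M : ℝ) ≤ ((H : ℝ) ^ k * L ^ k) * (x / L ^ (A + k + 1)) :=
          mul_le_mul hP1 hsm (Nat.cast_nonneg _) (by positivity)
      _ = ((H : ℝ) ^ k) * (L ^ k * (x / L ^ (A + k + 1))) := by ring
      _ = ((H : ℝ) ^ k) * (x / L ^ (A + 1)) := by rw [hLk]
      _ ≤ δ / 2 * Q := hsmall _ (by positivity) (by
          have : (H : ℝ) ^ k ≤ 2 ^ k * (H : ℝ) ^ k := le_mul_of_one_le_left (by positivity) h2k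
          linarith)

end Pool.Agent.Helper896.DU
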