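import Pool.Agent.Helper896.DU.A3

set_option autoImplicit false

/-! Thin sets of arguments: the exceptional vectors of constant terms. -/

namespace Pool.Agent.Helper896.DU
open Finset
open Pool.Agent.H373R2.T7
open Pool.Agent.TH935.TF
open Pool.Agent.W93.GB (pp pp_nonneg)

variable {k : ℕ}

lemma mk {Ω : Type*} (P S : Finset Ω) (Φ : Ω → ℝ) (hΦ : ∀ q ∈ P, 0 ≤ Φ q) (b : ℝ) (hSP : S ⊆ P) (hS : ∀ q ∈ S, b ≤ Φ q) :
    (S.card : ℝ) * b ≤ ∑ q ∈ P, Φ q := by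
  calc (S.card : ℝ) * b = ∑ _q ∈ S, b := by rw [sum_const, nsmul_eq_mul]
    _ ≤ ∑ q ∈ S, Φ q := sum_le_sum hS
    _ ≤ ∑ q ∈ P, Φ q := sum_le_sum_of_subset_of_nonneg hSP fun q hq _ => hΦ q hq

lemma one_sum (Z : Fin k → ℕ) (i : Fin k) (f : ℕ → ℝ) :
    (Z i : ℝ) * ∑ q ∈ Fintype.piFinset (fun i => Icc 1 (Z i)), f (q i) =
      (∏ i, (Z i : ℝ)) * ∑ v ∈ Icc 1 (Z i), f v := by
  have h := avg_coord (fun i => Icc 1 (Z i)) i (fun q => f (q i))
  simp only [Function.update_self, Nat.card_Icc, Nat.add_sub_cancel] at h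
  rw [← h, sum_const, Fintype.card_piFinset, nsmul_eq_mul]
  push_cast
  simp only [Nat.card_Icc, Nat.add_sub_cancel]

/-- the values -/
def vv (B : ℕ) (N : Fin k → ℕ) (s : Fin k → ℕ → ℤ) (q : Fin k → ℕ) (i : Fin k) (m : ℕ) : ℤ := q i + sh B N s i m

lemma vv_le (B : ℕ) (N : Fin k → ℕ) (s : Fin k → ℕ → ℤ) (q : Fin k → ℕ) (i : Fin k) (m : ℕ)
    (hq : q i ∈ Icc 1 (Y B N i)) (hs : |s i m| ≤ B * N i) : (vv B N s q i m).natAbs ≤ 2 * B * N i := by
  rw [mem_Icc] at hq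
  unfold Y at hq
  have h1 : |vv B N s q i m| ≤ ((2 * B * N i : ℕ) : ℤ) := by
    unfold vv sh
    push_cast
    have h2 : (1 : ℤ) ≤ q i := by exact_mod_cast hq.1
    have h3 : (q i : ℤ) ≤ 2 * (B * N i) + 1 := by exact_mod_cast hq.2
    rw [abs_le] at hs ⊢
    constructor <;> linarith [hs.1, hs.2]
  rw [← Int.natCast_natAbs] at h1
  exact_mod_cast h1

lemma pp_sum (B : ℕ) (N : Fin k → ℕ) (s : Fin k → ℕ → ℤ) (i : Fin k) (m : ℕ) (hBN : 1 ≤ B * N i) (hs : |s i m| ≤ B * N i) :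
    ∑ v ∈ Icc 1 (Y B N i), pp ((v : ℤ) + sh B N s i m).natAbs ≤ 4 * √((2 * B * N i : ℕ) : ℝ) * Real.log ((2 * B * N i : ℕ) : ℝ) := by
  have h := pp_form 1 (sh B N s i m) one_ne_zero (2 * B * N i) 0 (Y B N i) (by nlinarith) (by
    intro n hn
    have := vv_le B N s (fun _ => n) i m (by rw [mem_Ioc] at hn; rw [mem_Icc]; omega) hs
    unfold vv at this
    rw [one_mul]
    exact this)
  simp only [one_mul] at h
  exact h

lemma sm_sum (B : ℕ) (N : Fin k → ℕ) (s : Fin k → ℕ → ℤ) (i : Fin k) (m t : ℕ) :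
    ∑ v ∈ Icc 1 (Y B N i), (if ((v : ℤ) + sh B N s i m).natAbs ≤ t then (1 : ℝ) else 0) ≤ 2 * t + 1 := by
  have h := small_cnt 1 (sh B N s i m) one_ne_zero 0 (Y B N i) t
  simp only [one_mul] at h
  rw [← sum_filter, sum_const, nsmul_eq_mul, mul_one]
  exact_mod_cast h

/-- for all the sets: the number of arguments with prime values is the expected proportion of the number
of arguments with rough values -/
def HA {τ : Type} (ε : ℝ) (K x z : ℕ) (N : Fin k → ℕ) (𝒩 : τ → Finset ℕ) (F : Fin k → ℕ → ℤ) : Prop :=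
  ∀ l : τ, (x : ℝ) / Real.log x ^ K ≤ rgF z F (𝒩 l) →
    |(cnF F (𝒩 l) : ℝ) - rgF z F (𝒩 l) / ∏ i, (Vz z * Real.log (N i))| ≤
      ε * (rgF z F (𝒩 l) / ∏ i, (Vz z * Real.log (N i)))

lemma ppF_mono (F : Fin k → ℕ → ℤ) {M M' : Finset ℕ} (h : M ⊆ M') : ppF F M ≤ ppF F M' :=
  sum_le_sum_of_subset_of_nonneg h fun _ _ _ => sum_nonneg fun _ _ => pp_nonneg _

lemma smF_mono (t : Fin k → ℕ) (F : Fin k → ℕ → ℤ) {M M' : Finset ℕ} (h : M ⊆ M') : smF t F M ≤ smF t F M' := by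
  unfold smF
  exact card_le_card (filter_subset_filter _ h)

set_option maxHeartbeats 4000000 in
theorem fam (k : ℕ) (h : Fin k → ℕ) (B H C T U K : ℕ) (hB : 1 ≤ B) (ε : ℝ) (hε : 0 < ε) : ∃ E0 : ℕ, ∀ E : ℕ, E0 ≤ E →
    ∃ x0 : ℕ, ∀ x : ℕ, x0 ≤ x → ∀ (N : Fin k → ℕ) (s : Fin k → ℕ → ℤ), Sz k B H C x h N s →
    ∀ (τ : Type) [Fintype τ], (Fintype.card τ : ℝ) ≤ Real.log x ^ T →
    ∀ 𝒩 : τ → Finset ℕ, (∀ l, 𝒩 l ⊆ Icc 1 x) →
    ∀ 𝒮 : Finset (Fin k → ℕ), 𝒮 ⊆ Fintype.piFinset (fun i => Icc 1 (Y B N i)) →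
    (∀ q ∈ 𝒮, ¬ HA ε K x ⌊Real.log x ^ E⌋₊ N 𝒩 (vv B N s q)) →
    (𝒮.card : ℝ) ≤ (∏ i, (Y B N i : ℝ)) / Real.log x ^ U := by
  classical
  obtain ⟨U', hU'⟩ : ∃ U', U' = U + T + K + 2 := ⟨_, rfl⟩
  obtain ⟨W, hW⟩ : ∃ W, W = U + K + k + 3 := ⟨_, rfl⟩
  obtain ⟨B0, hB0⟩ := dual_sys k h B H C U' hB
  refine ⟨B0 + 1, fun E hE0 => ?_⟩
  obtain ⟨n0, h0⟩ := hB0 E
  obtain ⟨n1, h1⟩ := conv2 k K B H W hB ε hε
  obtain ⟨n2, h2⟩ := ev_L' (15 * k + 10)
  obtain ⟨n4, h4⟩ := ev_log' (W + 1) (4 * ((H : ℝ) + 1) ^ W)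
  obtain ⟨n5, h5⟩ := ev_log' W (2 * ((H : ℝ) + 1) ^ W)
  refine ⟨n0 + n1 + n2 + (n4 + n5 + 1) ^ H + 3, fun x hx N s hsz τ _ hτ 𝒩 h𝒩 𝒮 hSP hS => ?_⟩
  have b1 := h1 x (by omega) N hsz.up hsz.low
  have b2 := h2 x (by omega)
  have c0 := h0 x (by omega) N s hsz ⌊Real.log x ^ E⌋₊
  obtain ⟨L, hL⟩ : ∃ L, L = Real.log (x : ℝ) := ⟨_, rfl⟩
  rw [← hL] at b1 b2 c0 hτ hS ⊢
  have hkr : (0 : ℝ) ≤ k := Nat.cast_nonneg _
  have hL10 : 10 ≤ L := by linarith
  have hL1 : 1 ≤ L := by linarith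
  have hL0 : 0 < L := by linarith
  have hx0 : (0 : ℝ) < x := by exact_mod_cast (by omega : 0 < x)
  obtain ⟨z, hz⟩ : ∃ z : ℕ, z = ⌊L ^ E⌋₊ := ⟨_, rfl⟩
  rw [← hz] at c0 hS
  have hz2 : (z : ℝ) ≤ L ^ E := by rw [hz]; exact Nat.floor_le (by positivity)
  have hz1 : L ^ B0 ≤ z := by
    have e1 : L ^ E < z + 1 := by rw [hz]; exact Nat.lt_floor_add_one _
    have e3 : L ^ (B0 + 1) ≤ L ^ E := pow_le_pow_right₀ hL1 hE0
    have e4 : L ^ (B0 + 1) = L ^ B0 * L := by rw [← pow_succ]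
    have e5 : 1 ≤ L ^ B0 := one_le_pow₀ hL1
    nlinarith
  have c1 := c0 hz1 hz2
  obtain ⟨P, hP⟩ : ∃ P : Finset (Fin k → ℕ), P = Fintype.piFinset (fun i => Icc 1 (Y B N i)) := ⟨_, rfl⟩
  obtain ⟨Pt, hPi⟩ : ∃ Pt : ℝ, Pt = ∏ i, (Y B N i : ℝ) := ⟨_, rfl⟩
  rw [← hP] at c1 hSP
  rw [← hPi] at c1 ⊢
  have hYpos : ∀ i, (0 : ℝ) < Y B N i := fun i => by exact_mod_cast Y_pos B N i
  have hPi0 : 0 < Pt := by rw [hPi]; exact prod_pos fun i _ => hYpos i
  have hlg : ∀ i, 1 ≤ N i ∧ 1 ≤ H ∧ L ≤ H * Real.log (N i) ∧ Real.log (N i) ≤ H * L := by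
    intro i
    have := logs (by omega : 2 ≤ x) (hsz.up i) (hsz.low i)
    rwa [← hL] at this
  have hNbig : ∀ i, n4 + n5 + 1 ≤ N i := by
    intro i
    by_contra hcon
    push Not at hcon
    have e3 : N i ^ H ≤ (n4 + n5 + 1) ^ H := Nat.pow_le_pow_left (by omega) H
    have e5 := hsz.low i
    omega
  -- the three kinds of bad vectors
  obtain ⟨Φ1, hΦ1⟩ : ∃ Φ1 : (Fin k → ℕ) → ℝ, Φ1 = fun q => ∑ l : τ, |∑ m ∈ Icc 1 x, (if m ∈ 𝒩 l then (1 : ℝ) else 0) *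
    (∏ i, LL (q i + sh B N s i m) - ∏ i, mdl z (q i + sh B N s i m))| := ⟨_, rfl⟩
  obtain ⟨Φ2, hΦ2⟩ : ∃ Φ2 : (Fin k → ℕ) → ℝ, Φ2 = fun q => ppF (vv B N s q) (Icc 1 x) := ⟨_, rfl⟩
  obtain ⟨Φ3, hΦ3⟩ : ∃ Φ3 : (Fin k → ℕ) → ℝ, Φ3 = fun q => (smF (tt W x N) (vv B N s q) (Icc 1 x) : ℝ) := ⟨_, rfl⟩
  have hindic : ∀ (M : Finset ℕ), M ⊆ Icc 1 x → ∀ f : ℕ → ℝ,
      ∑ n ∈ Icc 1 x, (if n ∈ M then (1 : ℝ) else 0) * f n = ∑ n ∈ M, f n := by
    intro M hM f
    simp only [ite_mul, one_mul, zero_mul]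
    rw [sum_ite_mem, inter_eq_right.2 hM]
  have hcover : ∀ q ∈ 𝒮, (x : ℝ) / L ^ (K + 1) ≤ Φ1 q ∨ (x : ℝ) / L ^ (K + k + 1) ≤ Φ2 q ∨ (x : ℝ) / L ^ (K + k + 1) ≤ Φ3 q := by
    intro q hq
    by_contra hcon
    push Not at hcon
    obtain ⟨g1, g2, g3⟩ := hcon
    apply hS q hq
    intro l hR
    rw [← hL] at hR
    have hVp := Vz_pos z
    have hVinv : 1 ≤ (Vz z)⁻¹ ^ k := one_le_pow₀ ((one_le_inv₀ (Vz_pos z)).2 (Vz_le_one z))
    have hR0 : (0 : ℝ) ≤ rgF z (vv B N s q) (𝒩 l) := Nat.cast_nonneg _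
    have hqm := hSP hq
    rw [hP, Fintype.mem_piFinset] at hqm
    have key := b1 (vv B N s q) (𝒩 l) (fun i m hm => vv_le B N s q i m (hqm i) (hsz.val i m (h𝒩 l hm)))
      ((Vz z)⁻¹ ^ k * rgF z (vv B N s q) (𝒩 l)) (hR.trans (le_mul_of_one_le_left hR0 hVinv)) (by
        have e1 : |∑ m ∈ Icc 1 x, (if m ∈ 𝒩 l then (1 : ℝ) else 0) *
            (∏ i, LL (q i + sh B N s i m) - ∏ i, mdl z (q i + sh B N s i m))| ≤ Φ1 q := by
          rw [hΦ1]
          exact single_le_sum (f := fun l : τ => |∑ m ∈ Icc 1 x, (if m ∈ 𝒩 l then (1 : ℝ) else 0) *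
            (∏ i, LL (q i + sh B N s i m) - ∏ i, mdl z (q i + sh B N s i m))|) (fun _ _ => abs_nonneg _) (mem_univ l)
        rw [hindic (𝒩 l) (h𝒩 l), sum_sub_distrib] at e1
        have e2 := sum_mdlF (vv B N s q) z (𝒩 l)
        unfold WtF
        unfold vv at e2 ⊢
        rw [← e2]
        exact e1.trans g1.le) (by
        rw [hΦ2] at g2
        exact (ppF_mono _ (h𝒩 l)).trans g2.le) (by
        rw [hΦ3] at g3
        have e1 : (smF (tt W x N) (vv B N s q) (𝒩 l) : ℝ) ≤ smF (tt W x N) (vv B N s q) (Icc 1 x) := by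
          exact_mod_cast smF_mono (tt W x N) (vv B N s q) (h𝒩 l)
        exact e1.trans g3.le)
    have e1 : (Vz z)⁻¹ ^ k * (rgF z (vv B N s q) (𝒩 l) : ℝ) / ∏ i, Real.log (N i) =
        rgF z (vv B N s q) (𝒩 l) / ∏ i, (Vz z * Real.log (N i)) := by
      have hc := prod_mul_distrib (s := univ) (f := fun _ : Fin k => Vz z) (g := fun i => Real.log (N i))
      rw [hc, prod_const, card_univ, Fintype.card_fin, inv_pow]
      have := hVp.ne'
      rw [mul_comm, ← div_eq_mul_inv, div_div]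
    rw [e1] at key
    exact key
  -- the moments
  have hm1 : ∑ q ∈ P, Φ1 q ≤ L ^ T * ((x / L ^ U') * Pt) := by
    rw [hΦ1, sum_comm]
    calc _ ≤ ∑ _l : τ, ((x / L ^ U') * Pt) := by
          apply sum_le_sum
          intro l _
          exact c1 (fun m => if m ∈ 𝒩 l then (1 : ℝ) else 0) (fun m _ => by split_ifs <;> simp)
      _ = Fintype.card τ * ((x / L ^ U') * Pt) := by rw [sum_const, card_univ, nsmul_eq_mul]
      _ ≤ _ := mul_le_mul_of_nonneg_right hτ (by positivity)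
  have hcoordsum : ∀ (i : Fin k) (f : ℕ → ℕ → ℝ) (R : ℝ), (∀ m ∈ Icc 1 x, ∑ v ∈ Icc 1 (Y B N i), f v m ≤ R * Y B N i) →
      ∑ q ∈ P, ∑ m ∈ Icc 1 x, f (q i) m ≤ x * (R * Pt) := by
    intro i f R hf
    rw [sum_comm]
    calc _ ≤ ∑ _m ∈ Icc 1 x, (R * Pt) := by
          apply sum_le_sum
          intro m hm
          have e1 := one_sum (fun i => Y B N i) i (fun v => f v m)
          rw [← hP, ← hPi] at e1
          have e2 : (Y B N i : ℝ) * ∑ q ∈ P, f (q i) m ≤ Y B N i * (R * Pt) := by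
            rw [e1]
            calc Pt * ∑ v ∈ Icc 1 (Y B N i), f v m ≤ Pt * (R * Y B N i) := mul_le_mul_of_nonneg_left (hf m hm) hPi0.le
              _ = _ := by ring
          exact le_of_mul_le_mul_left e2 (hYpos i)
      _ = x * (R * Pt) := by rw [sum_const, Nat.card_Icc, Nat.add_sub_cancel, nsmul_eq_mul]
  have hlogle : ∀ i, L ≤ (H + 1) * Real.log (N i) := by
    intro i
    obtain ⟨a1, a2, a3, a4⟩ := hlg i
    have : 0 ≤ Real.log (N i) := Real.log_natCast_nonneg _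
    nlinarith
  have hm2 : ∑ q ∈ P, Φ2 q ≤ k * (x * (4 / L ^ W * Pt)) := by
    rw [hΦ2]
    unfold ppF vv
    have e1 : ∀ q : Fin k → ℕ, ∑ m ∈ Icc 1 x, ∑ i, pp ((q i : ℤ) + sh B N s i m).natAbs =
        ∑ i, ∑ m ∈ Icc 1 x, pp ((q i : ℤ) + sh B N s i m).natAbs := fun q => sum_comm
    rw [sum_congr rfl fun q _ => e1 q, sum_comm]
    calc _ ≤ ∑ _i : Fin k, (x * (4 / L ^ W * Pt)) := by
          apply sum_le_sum
          intro i _
          apply hcoordsum i (fun v m => pp ((v : ℤ) + sh B N s i m).natAbs)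
          intro m hm
          obtain ⟨a1, a2, a3, a4⟩ := hlg i
          have e2 := pp_sum B N s i m (Nat.mul_pos (by omega) (by omega)) (hsz.val i m hm)
          refine e2.trans ?_
          have hN0 : (0 : ℝ) < N i := by exact_mod_cast a1
          obtain ⟨X, hX⟩ : ∃ X : ℕ, X = 2 * B * N i := ⟨_, rfl⟩
          rw [← hX]
          have hNX : N i ≤ X := by rw [hX]; nlinarith
          have hX0 : (0 : ℝ) < X := by exact_mod_cast (by omega : 0 < X)
          have hXY : (X : ℝ) ≤ Y B N i := by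
            have : X ≤ Y B N i := by unfold Y; rw [hX]; nlinarith
            exact_mod_cast this
          have f1 := h4 X (by have := hNbig i; omega)
          have hlX : Real.log (N i) ≤ Real.log X := Real.log_le_log hN0 (by exact_mod_cast hNX)
          have hlX0 : 0 ≤ Real.log X := Real.log_natCast_nonneg _
          have f2 : L ^ W ≤ ((H + 1) * Real.log X) ^ W := by
            apply pow_le_pow_left₀ hL0.le
            have := hlogle i
            have hH0 : (0 : ℝ) ≤ H := Nat.cast_nonneg _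
            nlinarith
          have hss : √(X : ℝ) * √(X : ℝ) = X := Real.mul_self_sqrt hX0.le
          have f3 : 4 * (Real.log X * L ^ W) ≤ √(X : ℝ) := by
            calc 4 * (Real.log X * L ^ W) ≤ 4 * (Real.log X * ((H + 1) * Real.log X) ^ W) := by gcongr
              _ = 4 * ((H : ℝ) + 1) ^ W * Real.log X ^ (W + 1) := by rw [mul_pow]; ring
              _ ≤ √(X : ℝ) := f1
          have f4 : 4 * √(X : ℝ) * Real.log X ≤ 1 / L ^ W * X := by
            rw [one_div, le_inv_mul_iff₀ (by positivity)]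
            calc L ^ W * (4 * √(X : ℝ) * Real.log X) = (4 * (Real.log X * L ^ W)) * √(X : ℝ) := by ring
              _ ≤ √(X : ℝ) * √(X : ℝ) := mul_le_mul_of_nonneg_right f3 (Real.sqrt_nonneg _)
              _ = X := hss
          calc 4 * √(X : ℝ) * Real.log X ≤ 1 / L ^ W * X := f4
            _ ≤ 4 / L ^ W * Y B N i := by gcongr; norm_num
      _ = _ := by rw [sum_const, card_univ, Fintype.card_fin, nsmul_eq_mul]
  have hm3 : ∑ q ∈ P, Φ3 q ≤ k * (x * (5 / L ^ W * Pt)) := by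
    rw [hΦ3]
    have e0 : ∀ q : Fin k → ℕ, (smF (tt W x N) (vv B N s q) (Icc 1 x) : ℝ) ≤
        ∑ i, ∑ m ∈ Icc 1 x, (if ((q i : ℤ) + sh B N s i m).natAbs ≤ tt W x N i then (1 : ℝ) else 0) := by
      intro q
      rw [sum_comm]
      unfold smF
      rw [card_filter]
      push_cast
      apply sum_le_sum
      intro m _
      split_ifs with hh
      · obtain ⟨i, hi⟩ := hh
        have : (if ((q i : ℤ) + sh B N s i m).natAbs ≤ tt W x N i then (1 : ℝ) else 0) ≤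
            ∑ i, (if ((q i : ℤ) + sh B N s i m).natAbs ≤ tt W x N i then (1 : ℝ) else 0) :=
          single_le_sum (f := fun i => (if ((q i : ℤ) + sh B N s i m).natAbs ≤ tt W x N i then (1 : ℝ) else 0))
            (fun i _ => by split_ifs <;> norm_num) (mem_univ i)
        refine le_trans (le_of_eq ?_) this
        rw [if_pos]
        exact hi
      · exact sum_nonneg fun i _ => by split_ifs <;> norm_num
    refine (sum_le_sum fun q _ => e0 q).trans ?_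
    rw [sum_comm]
    calc _ ≤ ∑ _i : Fin k, (x * (5 / L ^ W * Pt)) := by
          apply sum_le_sum
          intro i _
          apply hcoordsum i (fun v m => if ((v : ℤ) + sh B N s i m).natAbs ≤ tt W x N i then (1 : ℝ) else 0)
          intro m hm
          obtain ⟨a1, a2, a3, a4⟩ := hlg i
          refine (sm_sum B N s i m (tt W x N i)).trans ?_
          have hN0 : (0 : ℝ) < N i := by exact_mod_cast a1
          have f0 : (tt W x N i : ℝ) ≤ N i / L ^ W + 1 := by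
            unfold tt
            rw [← hL]
            exact (Nat.ceil_lt_add_one (by positivity)).le
          have f1 := h5 (N i) (by have := hNbig i; omega)
          have f2 : L ^ W ≤ ((H + 1) * Real.log (N i)) ^ W := pow_le_pow_left₀ hL0.le (hlogle i) W
          have hN1 : (1 : ℝ) ≤ N i := by exact_mod_cast a1
          have f3 : 1 ≤ N i / L ^ W := by
            rw [le_div_iff₀ (by positivity), one_mul]
            calc L ^ W ≤ ((H + 1) * Real.log (N i)) ^ W := f2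
              _ = ((H : ℝ) + 1) ^ W * Real.log (N i) ^ W := mul_pow _ _ _
              _ ≤ 2 * ((H : ℝ) + 1) ^ W * Real.log (N i) ^ W := by
                  have : 0 ≤ ((H : ℝ) + 1) ^ W * Real.log (N i) ^ W := by
                    have := Real.log_natCast_nonneg (N i)
                    positivity
                  linarith
              _ ≤ √(N i : ℝ) := f1
              _ ≤ N i := by
                  rw [Real.sqrt_le_left hN0.le]
                  nlinarith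
          have f4 : (N i : ℝ) ≤ Y B N i := by
            have : N i ≤ Y B N i := by unfold Y; nlinarith
            exact_mod_cast this
          calc 2 * (tt W x N i : ℝ) + 1 ≤ 5 * (N i / L ^ W) := by linarith
            _ = 5 / L ^ W * N i := by ring
            _ ≤ 5 / L ^ W * Y B N i := mul_le_mul_of_nonneg_left f4 (by positivity)
      _ = _ := by rw [sum_const, card_univ, Fintype.card_fin, nsmul_eq_mul]
  -- counting
  have hΦ10 : ∀ q, 0 ≤ Φ1 q := fun q => by rw [hΦ1]; exact sum_nonneg fun _ _ => abs_nonneg _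
  have hΦ20 : ∀ q, 0 ≤ Φ2 q := fun q => by rw [hΦ2]; exact ppF_nonneg _ _
  have hΦ30 : ∀ q, 0 ≤ Φ3 q := fun q => by rw [hΦ3]; exact Nat.cast_nonneg _
  have k1 := mk P (𝒮.filter (fun q => (x : ℝ) / L ^ (K + 1) ≤ Φ1 q)) Φ1 (fun q _ => hΦ10 q) _
    ((filter_subset _ _).trans hSP) (fun q hq => (mem_filter.1 hq).2)
  have k2 := mk P (𝒮.filter (fun q => (x : ℝ) / L ^ (K + k + 1) ≤ Φ2 q)) Φ2 (fun q _ => hΦ20 q) _
    ((filter_subset _ _).trans hSP) (fun q hq => (mem_filter.1 hq).2)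
  have k3 := mk P (𝒮.filter (fun q => (x : ℝ) / L ^ (K + k + 1) ≤ Φ3 q)) Φ3 (fun q _ => hΦ30 q) _
    ((filter_subset _ _).trans hSP) (fun q hq => (mem_filter.1 hq).2)
  have hcard : 𝒮.card ≤ (𝒮.filter (fun q => (x : ℝ) / L ^ (K + 1) ≤ Φ1 q)).card +
      (𝒮.filter (fun q => (x : ℝ) / L ^ (K + k + 1) ≤ Φ2 q)).card +
      (𝒮.filter (fun q => (x : ℝ) / L ^ (K + k + 1) ≤ Φ3 q)).card := by
    have hsub : 𝒮 ⊆ (𝒮.filter (fun q => (x : ℝ) / L ^ (K + 1) ≤ Φ1 q)) ∪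
      (𝒮.filter (fun q => (x : ℝ) / L ^ (K + k + 1) ≤ Φ2 q)) ∪
      (𝒮.filter (fun q => (x : ℝ) / L ^ (K + k + 1) ≤ Φ3 q)) := by
      intro q hq
      rw [mem_union, mem_union, mem_filter, mem_filter, mem_filter]
      rcases hcover q hq with h | h | h
      · exact Or.inl (Or.inl ⟨hq, h⟩)
      · exact Or.inl (Or.inr ⟨hq, h⟩)
      · exact Or.inr ⟨hq, h⟩
    refine (card_le_card hsub).trans ((card_union_le _ _).trans ?_)
    have := card_union_le (𝒮.filter (fun q => (x : ℝ) / L ^ (K + 1) ≤ Φ1 q)) (𝒮.filter (fun q => (x : ℝ) / L ^ (K + k + 1) ≤ Φ2 q))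
    omega
  obtain ⟨a, ha⟩ : ∃ a : ℝ, a = ((𝒮.filter (fun q => (x : ℝ) / L ^ (K + 1) ≤ Φ1 q)).card : ℝ) := ⟨_, rfl⟩
  obtain ⟨b, hb⟩ : ∃ b : ℝ, b = ((𝒮.filter (fun q => (x : ℝ) / L ^ (K + k + 1) ≤ Φ2 q)).card : ℝ) := ⟨_, rfl⟩
  obtain ⟨c, hc⟩ : ∃ c : ℝ, c = ((𝒮.filter (fun q => (x : ℝ) / L ^ (K + k + 1) ≤ Φ3 q)).card : ℝ) := ⟨_, rfl⟩
  rw [← ha] at k1
  rw [← hb] at k2
  rw [← hc] at k3
  have hcr : (𝒮.card : ℝ) ≤ a + b + c := by rw [ha, hb, hc]; exact_mod_cast hcard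
  have j1 : a ≤ (1 / L) * (Pt / L ^ U) := by
    have e1 : a * (x / L ^ (K + 1)) ≤ ((1 / L) * (Pt / L ^ U)) * (x / L ^ (K + 1)) := by
      refine (k1.trans hm1).trans (le_of_eq ?_)
      rw [hU', show U + T + K + 2 = 1 + U + (K + 1) + T by ring, pow_add L (1 + U + (K + 1)) T, pow_add L (1 + U) (K + 1),
        pow_add L 1 U, pow_one]
      field_simp
    exact le_of_mul_le_mul_right e1 (by positivity)
  have j2 : b ≤ (4 * k / L) * (Pt / L ^ U) := by
    have e1 : b * (x / L ^ (K + k + 1)) ≤ ((4 * k / L) * (Pt / L ^ U)) * (x / L ^ (K + k + 1)) := by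
      refine (k2.trans hm2).trans ?_
      have e2 : (k : ℝ) * (x * (4 / L ^ W * Pt)) = (1 / L) * (((4 * k / L) * (Pt / L ^ U)) * (x / L ^ (K + k + 1))) := by
        rw [hW, show U + K + k + 3 = 2 + U + (K + k + 1) by ring, pow_add L (2 + U) (K + k + 1), pow_add L 2 U]
        field_simp
      rw [e2]
      apply mul_le_of_le_one_left (by positivity)
      rw [div_le_one hL0]
      exact hL1
    exact le_of_mul_le_mul_right e1 (by positivity)
  have j3 : c ≤ (5 * k / L) * (Pt / L ^ U) := by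
    have e1 : c * (x / L ^ (K + k + 1)) ≤ ((5 * k / L) * (Pt / L ^ U)) * (x / L ^ (K + k + 1)) := by
      refine (k3.trans hm3).trans ?_
      have e2 : (k : ℝ) * (x * (5 / L ^ W * Pt)) = (1 / L) * (((5 * k / L) * (Pt / L ^ U)) * (x / L ^ (K + k + 1))) := by
        rw [hW, show U + K + k + 3 = 2 + U + (K + k + 1) by ring, pow_add L (2 + U) (K + k + 1), pow_add L 2 U]
        field_simp
      rw [e2]
      apply mul_le_of_le_one_left (by positivity)
      rw [div_le_one hL0]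
      exact hL1
    exact le_of_mul_le_mul_right e1 (by positivity)
  have hsum : (1 / L + 4 * k / L + 5 * k / L : ℝ) ≤ 1 := by
    rw [← add_div, ← add_div, div_le_one hL0]
    linarith
  have hq0 : 0 ≤ Pt / L ^ U := by positivity
  calc (𝒮.card : ℝ) ≤ a + b + c := hcr
    _ ≤ (1 / L + 4 * k / L + 5 * k / L) * (Pt / L ^ U) := by linarith
    _ ≤ 1 * (Pt / L ^ U) := mul_le_mul_of_nonneg_right hsum hq0
    _ = _ := one_mul _

end Pool.Agent.Helper896.DU
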