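import Pool.Agent.Helper896.DU.A4
import Pool.Agent.TH935.TG3

set_option autoImplicit false

/-! Thin sets of arguments: all windows. -/

namespace Pool.Agent.Helper896.DU
open Finset
open Pool.Agent.H373R2.T7
open Pool.Agent.TH935.TF
open Pool.Agent.TH935.TG (win count_sub)

variable {k : ℕ}

/-- for all the sets and all windows: the number of arguments with prime values is the expected proportion
of the number of arguments with rough values -/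
def HB {τ : Type} (ε : ℝ) (K x z : ℕ) (N : Fin k → ℕ) (𝒩 : τ → Finset ℕ) (F : Fin k → ℕ → ℤ) : Prop :=
  ∀ l : τ, ∀ y₁ y₂ : ℕ, y₁ ≤ y₂ → y₂ ≤ x → (x : ℝ) / Real.log x ^ K ≤ rgF z F (win (𝒩 l) y₁ y₂) →
    |(cnF F (win (𝒩 l) y₁ y₂) : ℝ) - rgF z F (win (𝒩 l) y₁ y₂) / ∏ i, (Vz z * Real.log (N i))| ≤
      ε * (rgF z F (win (𝒩 l) y₁ y₂) / ∏ i, (Vz z * Real.log (N i)))

set_option maxHeartbeats 4000000 in
theorem win_det (k K E H : ℕ) (ε : ℝ) (hε : 0 < ε) : ∃ x0 : ℕ, ∀ x : ℕ, x0 ≤ x →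
    ∀ N : Fin k → ℕ, (∀ i, N i ≤ x ^ H) → (∀ i, x ≤ N i ^ H) →
    ∀ (τ : Type) (𝒩 : τ → Finset ℕ), ∀ z : ℕ, 1 ≤ z → (z : ℝ) ≤ Real.log x ^ E →
    ∃ J s : ℕ, (((J + 1) ^ 2 : ℕ) : ℝ) ≤ Real.log x ^ (2 * (K + 2 * k + 4)) ∧ ∀ F : Fin k → ℕ → ℤ,
      HA (ε / 2) (K + 1) x z N (fun l : τ × (Fin (J + 1) × Fin (J + 1)) => win (𝒩 l.1) ((l.2.1 : ℕ) * s) ((l.2.2 : ℕ) * s)) F →
      HB ε K x z N 𝒩 F := by
  classical
  obtain ⟨n1, h1⟩ := ev_L' (16 / ε + 12 + H + (H : ℝ) ^ (E + 1))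
  obtain ⟨n2, h2⟩ := ev_log' (K + 2 * k + 6) 1
  obtain ⟨n3, h3⟩ := Vz_inv_small (E + 1)
  refine ⟨n1 + n2 + (n3 + 1) ^ H + 3, fun x hx N hup hlow τ 𝒩 z hz1 hz2 => ?_⟩
  have b1 := h1 x (by omega)
  have b2 := h2 x (by omega)
  obtain ⟨L, hL⟩ : ∃ L, L = Real.log (x : ℝ) := ⟨_, rfl⟩
  have hlg : ∀ i, 1 ≤ N i ∧ 1 ≤ H ∧ L ≤ H * Real.log (N i) ∧ Real.log (N i) ≤ H * L := by
    intro i
    have := logs (by omega : 2 ≤ x) (hup i) (hlow i)
    rwa [← hL] at this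
  rw [← hL] at b1 b2 hz2 ⊢
  rw [one_mul] at b2
  have q1 : 0 ≤ 16 / ε := by positivity
  have q2 : (0 : ℝ) ≤ H := Nat.cast_nonneg _
  have q3 : (0 : ℝ) ≤ (H : ℝ) ^ (E + 1) := by positivity
  have hL10 : 10 ≤ L := by linarith
  have hL1 : 1 ≤ L := by linarith
  have hL0 : 0 < L := by linarith
  have hNr : (3 : ℝ) ≤ x := by exact_mod_cast (by omega : 3 ≤ x)
  have hN0 : (0 : ℝ) < x := by linarith
  have hss : √(x : ℝ) * √(x : ℝ) = x := Real.mul_self_sqrt hN0.le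
  have hs0 : 0 < √(x : ℝ) := Real.sqrt_pos.2 hN0
  have hs1 : 1 ≤ √(x : ℝ) := (one_le_pow₀ hL1).trans b2
  obtain ⟨J, hJ⟩ : ∃ J : ℕ, J = ⌈L ^ (K + 2 * k + 2)⌉₊ := ⟨_, rfl⟩
  have hJ1 : L ^ (K + 2 * k + 2) ≤ J := by rw [hJ]; exact Nat.le_ceil _
  have hJ2 : (J : ℝ) + 1 ≤ L ^ (K + 2 * k + 4) := by
    have h5 : (J : ℝ) < L ^ (K + 2 * k + 2) + 1 := by rw [hJ]; exact Nat.ceil_lt_add_one (by positivity)
    have h6 : 1 ≤ L ^ (K + 2 * k + 2) := one_le_pow₀ hL1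
    have h7 : L ^ (K + 2 * k + 4) = L ^ (K + 2 * k + 2) * L ^ 2 := by rw [← pow_add]
    rw [h7]
    have h8 : (3 : ℝ) ≤ L ^ 2 := by nlinarith
    nlinarith
  have hJ0 : (1 : ℝ) ≤ J := (one_le_pow₀ hL1).trans hJ1
  have hJn : 1 ≤ J := by exact_mod_cast hJ0
  obtain ⟨s, hs⟩ : ∃ s, s = x / J + 1 := ⟨_, rfl⟩
  have hspos : 1 ≤ s := by rw [hs]; exact Nat.le_add_left 1 _
  have hJs : x ≤ J * s := by
    rw [hs]
    have := Nat.div_add_mod x J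
    have h5 := Nat.mod_lt x (show 0 < J by omega)
    rw [mul_add, mul_one]
    omega
  refine ⟨J, s, ?_, fun F hA => ?_⟩
  · push_cast
    calc ((J : ℝ) + 1) ^ 2 ≤ (L ^ (K + 2 * k + 4)) ^ 2 := pow_le_pow_left₀ (by positivity) hJ2 2
      _ = L ^ (2 * (K + 2 * k + 4)) := by rw [← pow_mul]; congr 1; ring
  intro l y₁ y₂ h12 hy2 hR
  rw [← hL] at hR
  have hsle : (s : ℝ) ≤ x / L ^ (K + 2 * k + 2) + 1 := by
    rw [hs]
    push_cast
    have e2 : ((x / J : ℕ) : ℝ) ≤ (x : ℝ) / J := Nat.cast_div_le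
    have e3 : (x : ℝ) / J ≤ x / L ^ (K + 2 * k + 2) := div_le_div_of_nonneg_left (by positivity) (by positivity) hJ1
    linarith
  have hε16 : 16 ≤ L * ε := by
    have : 16 / ε ≤ L := by linarith
    rwa [div_le_iff₀ hε] at this
  have hsr : 4 * (s : ℝ) ≤ (ε / 2) * (x / L ^ (K + 2 * k)) := by
    have e4 : (x : ℝ) / L ^ (K + 2 * k + 2) = (1 / L ^ 2) * (x / L ^ (K + 2 * k)) := by rw [pow_add L (K + 2 * k) 2]; field_simp
    have e5 : 4 * (1 / L ^ 2) ≤ ε / 4 := by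
      rw [← mul_div_assoc, div_le_iff₀ (by positivity)]
      have : L ≤ L ^ 2 := by nlinarith
      nlinarith
    have e7 : 4 ≤ (ε / 4) * (x / L ^ (K + 2 * k)) := by
      have e9 : L ≤ x / L ^ (K + 2 * k) := by
        rw [le_div_iff₀ (by positivity)]
        calc L * L ^ (K + 2 * k) = L ^ (K + 2 * k + 1) := by ring
          _ ≤ L ^ (K + 2 * k + 6) := pow_le_pow_right₀ hL1 (by omega)
          _ ≤ √x := b2
          _ ≤ √x * √x := le_mul_of_one_le_left hs0.le hs1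
          _ = x := hss
      have e10 : (ε / 4) * L ≤ (ε / 4) * (x / L ^ (K + 2 * k)) := mul_le_mul_of_nonneg_left e9 (by positivity)
      linarith
    have e11 : 4 * (1 / L ^ 2) * (x / L ^ (K + 2 * k)) ≤ (ε / 4) * (x / L ^ (K + 2 * k)) := mul_le_mul_of_nonneg_right e5 (by positivity)
    rw [e4] at hsle
    linarith
  -- the inner window
  have hVp := Vz_pos z
  have hVL : ∀ i, 1 ≤ Vz z * Real.log (N i) := by
    intro i
    obtain ⟨a1, a2, a3, a4⟩ := hlg i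
    have hHr : (1 : ℝ) ≤ H := by exact_mod_cast a2
    have hNbig : n3 ≤ N i := by
      by_contra hcon
      push Not at hcon
      have e3 : N i ^ H ≤ (n3 + 1) ^ H := Nat.pow_le_pow_left (by omega) H
      have e5 := hlow i
      omega
    have hl0 : 0 ≤ Real.log (N i) := Real.log_natCast_nonneg _
    have e3 : (H : ℝ) ^ E ≤ Real.log (N i) := by
      have f2 : (H : ℝ) * (H : ℝ) ^ E ≤ H * Real.log (N i) := by
        calc (H : ℝ) * (H : ℝ) ^ E = (H : ℝ) ^ (E + 1) := by ring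
          _ ≤ L := by linarith
          _ ≤ H * Real.log (N i) := a3
      exact le_of_mul_le_mul_left f2 (by linarith)
    have b3 := h3 (N i) hNbig z hz1 (by
      calc (z : ℝ) ≤ L ^ E := hz2
        _ ≤ (H * Real.log (N i)) ^ E := pow_le_pow_left₀ hL0.le a3 E
        _ = (H : ℝ) ^ E * Real.log (N i) ^ E := by rw [mul_pow]
        _ ≤ Real.log (N i) * Real.log (N i) ^ E := mul_le_mul_of_nonneg_right e3 (by positivity)
        _ = Real.log (N i) ^ (E + 1) := by ring)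
    have : (Vz z)⁻¹ * Vz z ≤ Real.log (N i) * Vz z := mul_le_mul_of_nonneg_right b3 hVp.le
    rw [inv_mul_cancel₀ hVp.ne'] at this
    linarith
  obtain ⟨Z, hZ⟩ : ∃ Z, Z = ∏ i, (Vz z * Real.log (N i)) := ⟨_, rfl⟩
  have hZ1 : 1 ≤ Z := by
    rw [hZ]
    calc (1 : ℝ) = ∏ _i : Fin k, (1 : ℝ) := by rw [prod_const_one]
      _ ≤ _ := prod_le_prod (fun _ _ => zero_le_one) (fun i _ => hVL i)
  have hZ0 : 0 < Z := by linarith
  have hZ2 : Z ≤ L ^ (2 * k) := by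
    rw [hZ]
    calc ∏ i, (Vz z * Real.log (N i)) ≤ ∏ _i : Fin k, L ^ 2 := by
          apply prod_le_prod (fun i _ => by linarith [hVL i])
          intro i _
          obtain ⟨a1, a2, a3, a4⟩ := hlg i
          have hl0 : 0 ≤ Real.log (N i) := Real.log_natCast_nonneg _
          calc Vz z * Real.log (N i) ≤ 1 * Real.log (N i) := mul_le_mul_of_nonneg_right (Vz_le_one z) hl0
            _ ≤ H * L := by rw [one_mul]; exact a4
            _ ≤ L * L := by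
                apply mul_le_mul_of_nonneg_right _ hL0.le
                linarith
            _ = L ^ 2 := by ring
      _ = L ^ (2 * k) := by rw [prod_const, card_univ, Fintype.card_fin, ← pow_mul]
  obtain ⟨i₁, hi₁⟩ : ∃ i, i = y₁ / s + 1 := ⟨_, rfl⟩
  obtain ⟨i₂, hi₂⟩ : ∃ i, i = y₂ / s := ⟨_, rfl⟩
  have a1 : y₁ ≤ i₁ * s := by
    rw [hi₁]
    have := Nat.lt_div_mul_add (show 0 < s by omega) (a := y₁)
    rw [add_mul, one_mul]
    exact this.le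
  have a2 : i₁ * s ≤ y₁ + s := by
    rw [hi₁, add_mul, one_mul]
    have := Nat.div_mul_le_self y₁ s
    omega
  have a3 : i₂ * s ≤ y₂ := by rw [hi₂]; exact Nat.div_mul_le_self y₂ s
  have a4 : y₂ ≤ i₂ * s + s := by
    rw [hi₂]
    exact (Nat.lt_div_mul_add (show 0 < s by omega) (a := y₂)).le
  have r1 := count_sub (fun n : ℕ => ∀ i, ∀ p ∈ pz z, ¬ (p : ℤ) ∣ F i n) (𝒩 l) y₁ y₂ i₁ i₂ s a1 a2 a3 a4
  have r2 := count_sub (fun n : ℕ => ∀ i, (F i n).natAbs.Prime) (𝒩 l) y₁ y₂ i₁ i₂ s a1 a2 a3 a4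
  have r1' : rgF z F (win (𝒩 l) (i₁ * s) (i₂ * s)) ≤ rgF z F (win (𝒩 l) y₁ y₂) ∧
    rgF z F (win (𝒩 l) y₁ y₂) ≤ rgF z F (win (𝒩 l) (i₁ * s) (i₂ * s)) + 2 * s := by
    unfold rgF
    exact r1
  have r2' : cnF F (win (𝒩 l) (i₁ * s) (i₂ * s)) ≤ cnF F (win (𝒩 l) y₁ y₂) ∧
    cnF F (win (𝒩 l) y₁ y₂) ≤ cnF F (win (𝒩 l) (i₁ * s) (i₂ * s)) + 2 * s := by
    unfold cnF
    exact r2
  obtain ⟨R, hRd⟩ : ∃ R : ℝ, R = rgF z F (win (𝒩 l) y₁ y₂) := ⟨_, rfl⟩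
  obtain ⟨R', hRd'⟩ : ∃ R' : ℝ, R' = rgF z F (win (𝒩 l) (i₁ * s) (i₂ * s)) := ⟨_, rfl⟩
  obtain ⟨c, hcd⟩ : ∃ c : ℝ, c = cnF F (win (𝒩 l) y₁ y₂) := ⟨_, rfl⟩
  obtain ⟨c', hcd'⟩ : ∃ c' : ℝ, c' = cnF F (win (𝒩 l) (i₁ * s) (i₂ * s)) := ⟨_, rfl⟩
  have t1 : R' ≤ R := by rw [hRd, hRd']; exact_mod_cast r1'.1
  have t2 : R ≤ R' + 2 * s := by rw [hRd, hRd']; exact_mod_cast r1'.2
  have t3 : c' ≤ c := by rw [hcd, hcd']; exact_mod_cast r2'.1
  have t4 : c ≤ c' + 2 * s := by rw [hcd, hcd']; exact_mod_cast r2'.2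
  rw [← hRd] at hR
  rw [← hRd, ← hcd, ← hZ]
  have hs0r : (0 : ℝ) < s := by exact_mod_cast hspos
  have hRpos : 0 < R := lt_of_lt_of_le (by positivity) hR
  have hRZ : (x : ℝ) / L ^ (K + 2 * k) ≤ R / Z := by
    rw [le_div_iff₀ hZ0]
    calc (x : ℝ) / L ^ (K + 2 * k) * Z ≤ x / L ^ (K + 2 * k) * L ^ (2 * k) := mul_le_mul_of_nonneg_left hZ2 (by positivity)
      _ = x / L ^ K := by rw [pow_add L K (2 * k)]; field_simp
      _ ≤ R := hR
  have h4s : 4 * (s : ℝ) ≤ (ε / 2) * (R / Z) := hsr.trans (mul_le_mul_of_nonneg_left hRZ (by positivity))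
  -- the inner rough count is large
  have hR' : (x : ℝ) / L ^ (K + 1) ≤ R' := by
    have e1 : (x : ℝ) / L ^ (K + 1) = (1 / L) * (x / L ^ K) := by rw [pow_succ]; field_simp
    have e2 : (1 / L) ≤ 1 / 2 := by
      apply div_le_div_of_nonneg_left zero_le_one (by norm_num)
      linarith
    have e3 : (1 / L) * (x / L ^ K) ≤ (1 / 2) * (x / L ^ K) := mul_le_mul_of_nonneg_right e2 (by positivity)
    have e4 : 2 * (s : ℝ) ≤ (1 / 2) * (x / L ^ K) := by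
      have f2 : (x : ℝ) / L ^ (K + 2 * k + 2) ≤ x / L ^ (K + 2) := by
        apply div_le_div_of_nonneg_left (by positivity) (by positivity)
        exact pow_le_pow_right₀ hL1 (by omega)
      have f3 : (x : ℝ) / L ^ (K + 2) = (1 / L ^ 2) * (x / L ^ K) := by rw [pow_add L K 2]; field_simp
      have f4 : (1 : ℝ) / L ^ 2 ≤ 1 / 20 := by
        apply div_le_div_of_nonneg_left zero_le_one (by norm_num)
        nlinarith
      have f5 : (1 / L ^ 2 : ℝ) * (x / L ^ K) ≤ 1 / 20 * (x / L ^ K) := mul_le_mul_of_nonneg_right f4 (by positivity)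
      have f6 : 10 ≤ (x : ℝ) / L ^ K := by
        rw [le_div_iff₀ (by positivity)]
        calc 10 * L ^ K ≤ L * L ^ K := mul_le_mul_of_nonneg_right hL10 (by positivity)
          _ = L ^ (K + 1) := by ring
          _ ≤ L ^ (K + 2 * k + 6) := pow_le_pow_right₀ hL1 (by omega)
          _ ≤ √x := b2
          _ ≤ √x * √x := le_mul_of_one_le_left hs0.le hs1
          _ = x := hss
      linarith
    rw [e1]
    linarith
  have hR'pos : 0 < R' := lt_of_lt_of_le (by positivity) hR'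
  -- the indices
  have hi₂J : i₂ ≤ J := by
    have h5 : i₂ * s ≤ J * s := a3.trans (hy2.trans hJs)
    exact Nat.le_of_mul_le_mul_right h5 hspos
  have hi12 : i₁ ≤ i₂ := by
    by_contra hcon
    push Not at hcon
    have h5 : win (𝒩 l) (i₁ * s) (i₂ * s) = ∅ := by
      unfold win
      rw [filter_eq_empty_iff]
      intro n _ hn
      have : i₂ * s ≤ i₁ * s := Nat.mul_le_mul_right _ hcon.le
      omega
    rw [h5] at hRd'
    unfold rgF at hRd'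
    rw [filter_empty, card_empty, Nat.cast_zero] at hRd'
    linarith
  have key := hA (l, (⟨i₁, by omega⟩, ⟨i₂, by omega⟩)) (by
    simp only
    rw [← hL, ← hRd']
    exact hR')
  simp only at key
  rw [← hRd', ← hcd', ← hZ] at key
  have k1 : R' / Z ≤ R / Z := div_le_div_of_nonneg_right t1 hZ0.le
  have k2 : R / Z ≤ R' / Z + 2 * s := by
    calc R / Z ≤ (R' + 2 * s) / Z := div_le_div_of_nonneg_right t2 hZ0.le
      _ = R' / Z + 2 * s / Z := add_div _ _ _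
      _ ≤ R' / Z + 2 * s := by
          have : 2 * (s : ℝ) / Z ≤ 2 * s := div_le_self (by positivity) hZ1
          linarith
  have k3 : ε / 2 * (R' / Z) ≤ ε / 2 * (R / Z) := mul_le_mul_of_nonneg_left k1 (by positivity)
  rw [abs_le] at key ⊢
  constructor <;> linarith [key.1, key.2]

theorem fam_win (k : ℕ) (h : Fin k → ℕ) (B H C T U K : ℕ) (hB : 1 ≤ B) (ε : ℝ) (hε : 0 < ε) : ∃ E0 : ℕ, ∀ E : ℕ, E0 ≤ E →
    ∃ x0 : ℕ, ∀ x : ℕ, x0 ≤ x → ∀ (N : Fin k → ℕ) (s : Fin k → ℕ → ℤ), Sz k B H C x h N s →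
    ∀ (τ : Type) [Fintype τ], (Fintype.card τ : ℝ) ≤ Real.log x ^ T →
    ∀ 𝒩 : τ → Finset ℕ, (∀ l, 𝒩 l ⊆ Icc 1 x) →
    ∀ 𝒮 : Finset (Fin k → ℕ), 𝒮 ⊆ Fintype.piFinset (fun i => Icc 1 (Y B N i)) →
    (∀ q ∈ 𝒮, ¬ HB ε K x ⌊Real.log x ^ E⌋₊ N 𝒩 (vv B N s q)) →
    (𝒮.card : ℝ) ≤ (∏ i, (Y B N i : ℝ)) / Real.log x ^ U := by
  classical
  obtain ⟨E0, h0⟩ := fam k h B H C (T + 2 * (K + 2 * k + 4)) U (K + 1) hB (ε / 2) (half_pos hε)
  refine ⟨E0, fun E hE => ?_⟩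
  obtain ⟨n0, h1⟩ := h0 E hE
  obtain ⟨n1, h2⟩ := win_det k K E H ε hε
  obtain ⟨n2, h3⟩ := ev_L' 1
  refine ⟨n0 + n1 + n2, fun x hx N s hsz τ _ ht 𝒩 h𝒩 𝒮 hSx hS => ?_⟩
  have hL1 := h3 x (by omega)
  have hz1 : 1 ≤ ⌊Real.log x ^ E⌋₊ := Nat.le_floor (by rw [Nat.cast_one]; exact one_le_pow₀ hL1)
  have hz2 : ((⌊Real.log x ^ E⌋₊ : ℕ) : ℝ) ≤ Real.log x ^ E := Nat.floor_le (by positivity)
  obtain ⟨J, s', hJ, hdet⟩ := h2 x (by omega) N hsz.up hsz.low τ 𝒩 ⌊Real.log x ^ E⌋₊ hz1 hz2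
  refine h1 x (by omega) N s hsz (τ × (Fin (J + 1) × Fin (J + 1))) ?_
    (fun l => win (𝒩 l.1) ((l.2.1 : ℕ) * s') ((l.2.2 : ℕ) * s')) ?_ 𝒮 hSx ?_
  · rw [Fintype.card_prod, Fintype.card_prod, Fintype.card_fin]
    push_cast at hJ ⊢
    calc (Fintype.card τ : ℝ) * (((J : ℝ) + 1) * ((J : ℝ) + 1)) = Fintype.card τ * ((J : ℝ) + 1) ^ 2 := by ring
      _ ≤ Real.log x ^ T * Real.log x ^ (2 * (K + 2 * k + 4)) := mul_le_mul ht hJ (by positivity) (by positivity)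
      _ = _ := by rw [← pow_add]
  · intro l
    exact (filter_subset _ _).trans (h𝒩 l.1)
  · intro q hq hA
    exact hS q hq (hdet _ hA)

end Pool.Agent.Helper896.DU
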