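import Pool.Agent.Helper896.DU.A5

set_option autoImplicit false

/-! Thin sets of arguments: arguments from an arbitrary finite set. -/

namespace Pool.Agent.Helper896.DU
open Finset
open Pool.Agent.H373R2.T7
open Pool.Agent.TH935.TF
open Pool.Agent.TH935.TG (win)

variable {k : ℕ}

/-- the energy of the values at the elements of `S` -/
def energyS (h : ℕ) (S : Finset ℕ) (s : ℕ → ℤ) : ℕ :=
  (((Fintype.piFinset fun _ : Fin h => S) ×ˢ (Fintype.piFinset fun _ : Fin h => S)).filter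
    (fun q => ∑ i, s (q.1 i) = ∑ i, s (q.2 i))).card

open Classical in
/-- The number of `n ∈ S ∩ M` with `y₁ < n ≤ y₂` such that `|s i n + c i|` is prime for every `i`. -/
noncomputable def primeCount (S : Finset ℕ) (s : Fin k → ℕ → ℤ) (c : Fin k → ℤ) (M : Set ℕ) (y₁ y₂ : ℕ) : ℕ :=
  (S.filter (fun n : ℕ => n ∈ M ∧ y₁ < n ∧ n ≤ y₂ ∧ ∀ i, (s i n + c i).natAbs.Prime)).card

open Classical in
/-- The number of `n ∈ S ∩ M` with `y₁ < n ≤ y₂` such that no `s i n + c i` is divisible by a prime `p ≤ z`. -/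
noncomputable def roughCount (S : Finset ℕ) (s : Fin k → ℕ → ℤ) (c : Fin k → ℤ) (z : ℕ) (M : Set ℕ) (y₁ y₂ : ℕ) : ℕ :=
  (S.filter (fun n : ℕ => n ∈ M ∧ y₁ < n ∧ n ≤ y₂ ∧ ∀ i, ∀ p : ℕ, p.Prime → p ≤ z → ¬ (p : ℤ) ∣ s i n + c i)).card

/-- the expected proportion in all windows -/
def HS (ε : ℝ) (K z : ℕ) {m : ℕ} (S : Finset ℕ) (N : Fin k → ℕ) (𝒩 : Fin m → Set ℕ) (s : Fin k → ℕ → ℤ) (c : Fin k → ℤ) : Prop :=
  ∀ l : Fin m, ∀ y₁ y₂ : ℕ, y₁ ≤ y₂ → (S.card : ℝ) / Real.log S.card ^ K ≤ roughCount S s c z (𝒩 l) y₁ y₂ →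
    |(primeCount S s c (𝒩 l) y₁ y₂ : ℝ) - roughCount S s c z (𝒩 l) y₁ y₂ / ∏ i, (Vz z * Real.log (N i))| ≤
      ε * (roughCount S s c z (𝒩 l) y₁ y₂ / ∏ i, (Vz z * Real.log (N i)))

section enum
variable (S : Finset ℕ)

/-- the `j`-th element of `S` -/
noncomputable def ej (j : ℕ) : ℕ := Nat.nth (· ∈ S) (j - 1)

lemma fin_card (hf : (Set.ofPred (fun x => x ∈ S)).Finite) : hf.toFinset.card = S.card := by
  congr 1
  ext n
  rw [Set.Finite.mem_toFinset]
  exact Iff.rfl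

lemma ej_mem {j : ℕ} (hj : j ∈ Icc 1 S.card) : ej S j ∈ S := by
  rw [mem_Icc] at hj
  exact Nat.nth_mem (p := (· ∈ S)) (j - 1) (fun hf => by have := fin_card S hf; omega)

lemma count_ej {j : ℕ} (hj : j ∈ Icc 1 S.card) : Nat.count (· ∈ S) (ej S j) = j - 1 := by
  rw [mem_Icc] at hj
  exact Nat.count_nth (p := (· ∈ S)) (fun hf => by have := fin_card S hf; omega)

lemma ej_count {n : ℕ} (hn : n ∈ S) : ej S (Nat.count (· ∈ S) n + 1) = n := by
  unfold ej
  rw [Nat.add_sub_cancel]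
  exact Nat.nth_count (p := (· ∈ S)) hn

lemma count_lt {n : ℕ} (hn : n ∈ S) : Nat.count (· ∈ S) n + 1 ∈ Icc 1 S.card := by
  rw [mem_Icc]
  refine ⟨by omega, ?_⟩
  have h1 : Nat.count (· ∈ S) (n + 1) ≤ S.card := by
    rw [Nat.count_eq_card_filter_range]
    apply card_le_card
    intro m hm
    exact (mem_filter.1 hm).2
  have h2 := Nat.count_strict_mono (p := (· ∈ S)) hn (Nat.lt_succ_self n)
  simp only [Nat.succ_eq_add_one] at h2
  omega

lemma ej_le {j : ℕ} (hj : j ∈ Icc 1 S.card) (y : ℕ) : ej S j ≤ y ↔ j ≤ Nat.count (· ∈ S) (y + 1) := by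
  have h0 := count_ej S hj
  have hj' := mem_Icc.1 hj
  constructor
  · intro h
    have := Nat.count_strict_mono (p := (· ∈ S)) (ej_mem S hj) (Nat.lt_succ_of_le h)
    simp only [Nat.succ_eq_add_one] at this
    omega
  · intro h
    by_contra hcon
    push Not at hcon
    have := Nat.count_monotone (· ∈ S) (show y + 1 ≤ ej S j by omega)
    omega

lemma ej_inj {i j : ℕ} (hi : i ∈ Icc 1 S.card) (hj : j ∈ Icc 1 S.card) (h : ej S i = ej S j) : i = j := by
  have h1 := count_ej S hi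
  have h2 := count_ej S hj
  rw [h] at h1
  have := mem_Icc.1 hi
  have := mem_Icc.1 hj
  omega

open Classical in
/-- counting through the enumeration -/
lemma card_enum (M : Set ℕ) (P : ℕ → Prop) (y₁ y₂ : ℕ) :
    (S.filter (fun n : ℕ => n ∈ M ∧ y₁ < n ∧ n ≤ y₂ ∧ P n)).card =
      ((win ((Icc 1 S.card).filter (fun j => ej S j ∈ M)) (Nat.count (· ∈ S) (y₁ + 1)) (Nat.count (· ∈ S) (y₂ + 1))).filter
        (fun j => P (ej S j))).card := by
  symm
  apply card_bij (fun j _ => ej S j)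
  · intro j hj
    unfold win at hj
    rw [mem_filter, mem_filter, mem_filter] at hj
    obtain ⟨⟨⟨h1, h2⟩, h3, h4⟩, h5⟩ := hj
    rw [mem_filter]
    refine ⟨ej_mem S h1, h2, ?_, (ej_le S h1 y₂).2 h4, h5⟩
    by_contra hcon
    push Not at hcon
    have := (ej_le S h1 y₁).1 hcon
    omega
  · intro i hi j hj h
    unfold win at hi hj
    rw [mem_filter, mem_filter, mem_filter] at hi hj
    exact ej_inj S hi.1.1.1 hj.1.1.1 h
  · intro n hn
    rw [mem_filter] at hn
    obtain ⟨h1, h2, h3, h4, h5⟩ := hn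
    have e1 := ej_count S h1
    have e2 := count_lt S h1
    refine ⟨Nat.count (· ∈ S) n + 1, ?_, e1⟩
    unfold win
    rw [mem_filter, mem_filter, mem_filter]
    refine ⟨⟨⟨e2, by rw [e1]; exact h2⟩, ?_, ?_⟩, by rw [e1]; exact h5⟩
    · by_contra hcon
      push Not at hcon
      have := (ej_le S e2 y₁).2 hcon
      omega
    · exact (ej_le S e2 y₂).1 (by omega)

lemma energy_enum (h : ℕ) (s : ℕ → ℤ) : energy h S.card (fun j => s (ej S j)) ≤ energyS h S s := by
  unfold energy energyS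
  apply card_le_card_of_injOn (fun q => (fun j => ej S (q.1 j), fun j => ej S (q.2 j)))
  · intro q hq
    rw [mem_coe, mem_filter, mem_product, Fintype.mem_piFinset, Fintype.mem_piFinset] at hq
    rw [mem_coe, mem_filter, mem_product, Fintype.mem_piFinset, Fintype.mem_piFinset]
    exact ⟨⟨fun j => ej_mem S (hq.1.1 j), fun j => ej_mem S (hq.1.2 j)⟩, hq.2⟩
  · intro q hq q' hq' h2
    rw [mem_coe, mem_filter, mem_product, Fintype.mem_piFinset, Fintype.mem_piFinset] at hq hq'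
    simp only [Prod.mk.injEq] at h2
    apply Prod.ext
    · funext j
      exact ej_inj S (hq.1.1 j) (hq'.1.1 j) (congrFun h2.1 j)
    · funext j
      exact ej_inj S (hq.1.2 j) (hq'.1.2 j) (congrFun h2.2 j)

end enum

/-- sizes -/
structure SzS (k B H C : ℕ) (h : Fin k → ℕ) (S : Finset ℕ) (N : Fin k → ℕ) (s : Fin k → ℕ → ℤ) : Prop where
  up : ∀ i, N i ≤ S.card ^ H
  low : ∀ i, S.card ≤ N i ^ H
  val : ∀ i, ∀ n ∈ S, |s i n| ≤ B * N i
  en : ∀ i, (energyS (h i) S (s i) : ℝ) * N i ≤ Real.log S.card ^ C * (S.card : ℝ) ^ (2 * h i)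

open Classical in
theorem fam_S (k : ℕ) (h : Fin k → ℕ) (B H C T U K : ℕ) (hB : 1 ≤ B) (ε : ℝ) (hε : 0 < ε) : ∃ E0 : ℕ, ∀ E : ℕ, E0 ≤ E →
    ∃ x0 : ℕ, ∀ (S : Finset ℕ), x0 ≤ S.card → ∀ (N : Fin k → ℕ) (s : Fin k → ℕ → ℤ), SzS k B H C h S N s →
    ∀ m : ℕ, (m : ℝ) ≤ Real.log S.card ^ T → ∀ 𝒩 : Fin m → Set ℕ,
    (((Fintype.piFinset (fun i => Icc (-((B * N i : ℕ) : ℤ)) ((B * N i : ℕ) : ℤ))).filter
      (fun c => ¬ HS ε K ⌊Real.log S.card ^ E⌋₊ S N 𝒩 s c)).card : ℝ) ≤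
        (∏ i, (2 * (B * N i) + 1 : ℝ)) / Real.log S.card ^ U := by
  classical
  obtain ⟨E0, h0⟩ := fam_win k h B H C T U K hB ε hε
  refine ⟨E0, fun E hE => ?_⟩
  obtain ⟨x0, h1⟩ := h0 E hE
  refine ⟨x0, fun S hx N s hsz m hm 𝒩 => ?_⟩
  obtain ⟨x, hxd⟩ : ∃ x, x = S.card := ⟨_, rfl⟩
  obtain ⟨z, hz⟩ : ∃ z : ℕ, z = ⌊Real.log S.card ^ E⌋₊ := ⟨_, rfl⟩
  have key := h1 S.card hx N (fun i j => s i (ej S j))
    { up := hsz.up
      low := hsz.low
      val := fun i j hj => hsz.val i _ (ej_mem S hj)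
      en := fun i => by
        refine le_trans ?_ (hsz.en i)
        apply mul_le_mul_of_nonneg_right _ (Nat.cast_nonneg _)
        exact_mod_cast energy_enum S (h i) (s i) }
    (Fin m) (by rw [Fintype.card_fin]; exact hm)
    (fun l => (Icc 1 S.card).filter (fun j => ej S j ∈ 𝒩 l)) (fun l => filter_subset _ _)
    ((Fintype.piFinset (fun i => Icc 1 (Y B N i))).filter
      (fun q => ¬ HS ε K ⌊Real.log S.card ^ E⌋₊ S N 𝒩 s (fun i => (q i : ℤ) - B * N i - 1))) (filter_subset _ _) (by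
    intro q hq hHB
    rw [mem_filter] at hq
    apply hq.2
    intro l y₁ y₂ h12 hR
    have hvv : ∀ i j, vv B N (fun i j => s i (ej S j)) q i j = s i (ej S j) + ((q i : ℤ) - B * N i - 1) := by
      intro i j
      unfold vv sh
      ring
    have e1 : (primeCount S s (fun i => (q i : ℤ) - B * N i - 1) (𝒩 l) y₁ y₂) =
        cnF (vv B N (fun i j => s i (ej S j)) q) (win ((Icc 1 S.card).filter (fun j => ej S j ∈ 𝒩 l))
          (Nat.count (· ∈ S) (y₁ + 1)) (Nat.count (· ∈ S) (y₂ + 1))) := by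
      unfold primeCount cnF
      refine Eq.trans ?_ ((card_enum S (𝒩 l) (fun n => ∀ i, (s i n + ((q i : ℤ) - B * N i - 1)).natAbs.Prime) y₁ y₂).trans ?_)
      · congr 1
        ext n
        simp only [mem_filter]
      · congr 1
        ext j
        simp only [mem_filter, hvv]
    have e2 : (roughCount S s (fun i => (q i : ℤ) - B * N i - 1) ⌊Real.log S.card ^ E⌋₊ (𝒩 l) y₁ y₂) =
        rgF ⌊Real.log S.card ^ E⌋₊ (vv B N (fun i j => s i (ej S j)) q) (win ((Icc 1 S.card).filter (fun j => ej S j ∈ 𝒩 l))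
          (Nat.count (· ∈ S) (y₁ + 1)) (Nat.count (· ∈ S) (y₂ + 1))) := by
      unfold roughCount rgF
      refine Eq.trans ?_ ((card_enum S (𝒩 l) (fun n => ∀ i, ∀ p : ℕ, p.Prime → p ≤ ⌊Real.log S.card ^ E⌋₊ →
        ¬ (p : ℤ) ∣ s i n + ((q i : ℤ) - B * N i - 1)) y₁ y₂).trans ?_)
      · congr 1
        ext n
        simp only [mem_filter]
      · congr 1
        ext j
        simp only [mem_filter, hvv]
        constructor
        · rintro ⟨h4, h5⟩
          exact ⟨h4, fun i p hp => h5 i p (mem_pz.1 hp).2 (mem_pz.1 hp).1⟩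
        · rintro ⟨h4, h5⟩
          exact ⟨h4, fun i p hp1 hp2 => h5 i p (mem_pz.2 ⟨hp2, hp1⟩)⟩
    rw [e2] at hR
    rw [e1, e2]
    apply hHB l _ _ (Nat.count_monotone _ (by omega)) _ hR
    rw [Nat.count_eq_card_filter_range]
    apply card_le_card
    intro m hm
    exact (mem_filter.1 hm).2)
  have hle : ((Fintype.piFinset (fun i => Icc (-((B * N i : ℕ) : ℤ)) ((B * N i : ℕ) : ℤ))).filter
      (fun c => ¬ HS ε K ⌊Real.log S.card ^ E⌋₊ S N 𝒩 s c)).card ≤
      ((Fintype.piFinset (fun i => Icc 1 (Y B N i))).filter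
      (fun q => ¬ HS ε K ⌊Real.log S.card ^ E⌋₊ S N 𝒩 s (fun i => (q i : ℤ) - B * N i - 1))).card := by
    have hback : ∀ c ∈ Fintype.piFinset (fun i => Icc (-((B * N i : ℕ) : ℤ)) ((B * N i : ℕ) : ℤ)),
        (fun i => (((c i + B * N i + 1).toNat : ℕ) : ℤ) - B * N i - 1) = c := by
      intro c hc
      rw [Fintype.mem_piFinset] at hc
      funext i
      have h5 := mem_Icc.1 (hc i)
      push_cast at h5
      rw [Int.toNat_of_nonneg (by linarith)]
      ring
    apply card_le_card_of_injOn (fun (c : Fin k → ℤ) (i : Fin k) => (c i + B * N i + 1).toNat)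
    · intro c hc
      rw [mem_coe, mem_filter] at hc
      rw [mem_coe, mem_filter]
      constructor
      · rw [Fintype.mem_piFinset]
        intro i
        have h5 := mem_Icc.1 (Fintype.mem_piFinset.1 hc.1 i)
        push_cast at h5
        rw [mem_Icc]
        unfold Y
        have h6 : (((c i + B * N i + 1).toNat : ℕ) : ℤ) = c i + B * N i + 1 := Int.toNat_of_nonneg (by linarith)
        constructor
        · have : (1 : ℤ) ≤ (((c i + B * N i + 1).toNat : ℕ) : ℤ) := by rw [h6]; linarith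
          exact_mod_cast this
        · have : (((c i + B * N i + 1).toNat : ℕ) : ℤ) ≤ ((2 * (B * N i) + 1 : ℕ) : ℤ) := by
            rw [h6]
            push_cast
            linarith
          exact_mod_cast this
      · rw [hback c hc.1]
        exact hc.2
    · intro c hc c' hc' h5
      rw [mem_coe, mem_filter] at hc hc'
      rw [← hback c hc.1, ← hback c' hc'.1]
      funext i
      have h7 : (c i + B * N i + 1).toNat = (c' i + B * N i + 1).toNat := congrFun h5 i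
      rw [h7]
  have hle' : (((Fintype.piFinset (fun i => Icc (-((B * N i : ℕ) : ℤ)) ((B * N i : ℕ) : ℤ))).filter
      (fun c => ¬ HS ε K ⌊Real.log S.card ^ E⌋₊ S N 𝒩 s c)).card : ℝ) ≤
      (((Fintype.piFinset (fun i => Icc 1 (Y B N i))).filter
      (fun q => ¬ HS ε K ⌊Real.log S.card ^ E⌋₊ S N 𝒩 s (fun i => (q i : ℤ) - B * N i - 1))).card : ℝ) := by exact_mod_cast hle
  refine hle'.trans (key.trans (le_of_eq ?_))
  congr 1
  apply prod_congr rfl
  intro i _
  unfold Y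
  push_cast
  ring

end Pool.Agent.Helper896.DU
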